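import Pool.Agent.K6.H61.SI.Arb
import Pool.Agent.N734.AP.AllX
import Pool.Agent.R345.AP7

set_option autoImplicit false

/-! # Arbitrary weights on the primes, all `x` with `(log N) ^ C ≤ x ≤ exp ((log N) ^ B)` -/

namespace Pool.Agent.K6.H61.SI

open Finset Filter Topology
open Pool.Agent.H771R4.SE (Dat cntE)
open Pool.Agent.H386R2.Artin (PP Good hL card_PP pi_lower ev1 tlog)
open Pool.Agent.R345.AP (badZ uniform4)
open Pool.Agent.N734.AP (badU allU)
open Pool.Agent.H730R2.AA.Grid (g g_ge g_one_le g_step g_mono pi_ratio)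

open Classical in
/-- the integers that are exceptional for the weights `w` and some `x` of the range -/
noncomputable def badW (d : Dat) (w : ℕ → ℝ) (ε C B : ℝ) (N : ℕ) : Finset ℕ :=
  (Icc 1 N).filter (fun n : ℕ => ∃ x : ℕ, (Real.log N) ^ C ≤ x ∧
    (x : ℝ) ≤ Real.exp ((Real.log N) ^ B) ∧ ε * (Nat.primeCounting x : ℝ) < |dev d w n x|)

lemma dev_lip (d : Dat) (w : ℕ → ℝ) (hw : ∀ p, 0 ≤ w p ∧ w p ≤ 1) (n : ℕ) {x y : ℕ} (h : x ≤ y) :
    |dev d w n y - dev d w n x| ≤ 2 * ((Nat.primeCounting y : ℝ) - Nat.primeCounting x) := by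
  classical
  have hsub : PP x ⊆ PP y := by
    unfold PP
    apply filter_subset_filter
    intro a ha
    rw [mem_range] at ha ⊢
    omega
  unfold dev
  rw [← Finset.sum_sdiff hsub, add_sub_cancel_right]
  refine (Finset.abs_sum_le_sum_abs _ _).trans ?_
  calc ∑ p ∈ PP y \ PP x, |w p * (iP (d.Q p (n : ZMod p)) - d.G p)| ≤ ∑ _p ∈ PP y \ PP x, (2 : ℝ) := by
        refine Finset.sum_le_sum fun p _ => ?_
        rw [abs_mul, abs_of_nonneg (hw p).1]
        calc w p * |iP (d.Q p (n : ZMod p)) - d.G p| ≤ 1 * 2 :=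
              mul_le_mul (hw p).2 (term_abs d p _) (abs_nonneg _) zero_le_one
          _ = 2 := by norm_num
    _ = 2 * ((Nat.primeCounting y : ℝ) - Nat.primeCounting x) := by
        rw [Finset.sum_const, nsmul_eq_mul, card_sdiff_of_subset hsub, card_PP, card_PP, mul_comm,
          Nat.cast_sub (Nat.monotone_primeCounting h)]

theorem allW (θ C B : ℝ) (hθ : 1 / 2 < θ) (hθ1 : θ < 1) (hC : 1 / (2 * θ - 1) < C)
    (hB : B < 1 / (2 * (1 - θ))) (d0 : Dat) (ε : ℝ) (hε : 0 < ε) :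
    ∃ N₀ : ℕ, ∀ N : ℕ, N₀ ≤ N → ∀ w : ℕ → ℝ, (∀ p, 0 ≤ w p ∧ w p ≤ 1) →
      (#(badW d0 w ε C B N) : ℝ) ≤ (N : ℝ) ^ θ := by
  classical
  have h2θ : 0 < 2 * θ - 1 := by linarith
  have h1θ : 0 < 1 - θ := by linarith
  obtain ⟨C', hC'1, hC'2⟩ := exists_between hC
  have hC'0 : 0 < C' := lt_trans (by positivity) hC'1
  have hC'g : 1 < C' := by
    have : 1 < 1 / (2 * θ - 1) := by
      rw [lt_div_iff₀ h2θ]
      linarith
    linarith
  -- an upper exponent above 1
  obtain ⟨B', hBB', hB'1, hB'θ⟩ : ∃ B' : ℝ, B < B' ∧ 1 < B' ∧ B' < 1 / (2 * (1 - θ)) := by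
    have h1 : 1 < 1 / (2 * (1 - θ)) := by
      rw [lt_div_iff₀ (by positivity)]
      linarith
    obtain ⟨B1, h2, h3⟩ := exists_between (max_lt h1 hB)
    exact ⟨B1, (le_max_right _ _).trans_lt h2, (le_max_left _ _).trans_lt h2, h3⟩
  have hB'0 : 0 < B' := by linarith
  -- a smaller exponent
  obtain ⟨θ', h1θ', hθ'θ, hCθ', hB'θ'⟩ : ∃ θ' : ℝ, 1 / 2 < θ' ∧ θ' < θ ∧ 1 < C' * (2 * θ' - 1) ∧
      2 * B' * (1 - θ') < 1 := by
    have h1 : 1 / 2 + 1 / (2 * C') < θ := by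
      have h3 : 1 / (2 * C') < θ - 1 / 2 := by
        rw [div_lt_iff₀ h2θ] at hC'1
        rw [div_lt_iff₀ (by positivity)]
        linarith
      linarith
    have h2 : 1 - 1 / (2 * B') < θ := by
      have h3 : 1 - θ < 1 / (2 * B') := by
        rw [lt_div_iff₀ (by positivity)] at hB'θ ⊢
        linarith
      linarith
    obtain ⟨θ', h4, h5⟩ := exists_between (max_lt h1 h2)
    obtain ⟨h6, h7⟩ := max_lt_iff.1 h4
    refine ⟨θ', ?_, h5, ?_, ?_⟩
    · have : 0 < 1 / (2 * C') := by positivity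
      linarith
    · have h8 : 1 / (2 * C') < θ' - 1 / 2 := by linarith
      rw [div_lt_iff₀ (by positivity)] at h8
      linarith
    · have h8 : 1 - θ' < 1 / (2 * B') := by linarith
      rw [lt_div_iff₀ (by positivity)] at h8
      linarith
  set e : ℝ := ε / 8 with hedef
  have he : 0 < e := by positivity
  obtain ⟨κ, hκ, hall⟩ := uniform4 θ' C' h1θ' (by linarith) hCθ'
  obtain ⟨N₁, hN₁⟩ := hall {d : Dat // d.G = d0.G ∧ d.A = d0.A ∧ d.p0 = d0.p0} (fun d => d.1)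
    ⟨d0, rfl, rfl, rfl⟩ (fun d => d.2.1) (fun d => d.2.2.1) (fun d => d.2.2.2) e he
  obtain ⟨N₂, hN₂⟩ := allU θ' B' κ (by linarith) hB'1 hB'θ' hκ d0 e he
  obtain ⟨X₀, J, hone⟩ := oneW d0 e he
  obtain ⟨ρ, hρ, hρ2, X, hX2, hpi⟩ := pi_ratio e he
  obtain ⟨y₀, hy₀3, hpl⟩ := pi_lower
  have hρρ : 0 < ρ ^ 2 - ρ := by nlinarith
  have hlρ : 0 < Real.log ρ := Real.log_pos hρ
  have hρ4 : ρ ^ 2 ≤ 4 := by nlinarith
  -- lower bound for the number of primes
  have hη : 0 < 1 - 1 / C' := by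
    have : 1 / C' < 1 := by
      rw [div_lt_one hC'0]
      exact hC'g
    linarith
  obtain ⟨X₁, hX₁⟩ := eventually_atTop.1 (ev1 (1 - 1 / C') (e / 16) hη (by positivity))
  have hsmall : ∀ N x : ℕ, 1 ≤ N → X₁ ≤ x → y₀ ≤ x → (Real.log N) ^ C' ≤ x →
      16 * Real.log N ≤ e * Nat.primeCounting x := by
    intro N x hN h1 h2 h3
    have h4 := hX₁ x h1
    have h5 := hpl x h2
    have hl : 0 ≤ Real.log N := Real.log_nonneg (by exact_mod_cast hN)
    have h6 : Real.log N ≤ (x : ℝ) ^ (1 / C') := by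
      have h7 := Real.rpow_le_rpow (Real.rpow_nonneg hl _) h3 (show 0 ≤ 1 / C' by positivity)
      rw [← Real.rpow_mul hl] at h7
      have h8 : C' * (1 / C') = 1 := by field_simp
      rw [h8, Real.rpow_one] at h7
      exact h7
    have h9 : 1 - (1 - 1 / C') = 1 / C' := by ring
    rw [h9] at h4
    have h10 : e / 16 * ((x : ℝ) / (2 * Real.log x)) ≤ e / 16 * Nat.primeCounting x := by gcongr
    linarith
  -- the number of grid points
  have hs : 0 < θ - θ' := by linarith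
  have hJev : ∀ᶠ N : ℕ in atTop, ((Real.log N) ^ B' / Real.log ρ + 1) * (2 * (J : ℝ)) ≤
      (N : ℝ) ^ (θ - θ') := by
    have h1 := (isLittleO_log_rpow_rpow_atTop B' hs).def
      (show (0 : ℝ) < Real.log ρ / (4 * ((J : ℝ) + 1)) by positivity)
    have h2 := (tendsto_natCast_atTop_atTop (R := ℝ)).eventually h1
    have h3 : ∀ᶠ N : ℕ in atTop, (4 * ((J : ℝ) + 1)) ≤ (N : ℝ) ^ (θ - θ') :=
      ((tendsto_rpow_atTop hs).comp tendsto_natCast_atTop_atTop).eventually_ge_atTop _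
    filter_upwards [h2, h3, eventually_ge_atTop 2] with N h2 h3 h4
    have hN : (2 : ℝ) ≤ N := by exact_mod_cast h4
    have hl : 0 < Real.log N := Real.log_pos (by linarith)
    rw [Real.norm_eq_abs, abs_of_pos (by positivity), Real.norm_eq_abs,
      abs_of_pos (by positivity)] at h2
    have hJ0 : (0 : ℝ) ≤ J := Nat.cast_nonneg J
    have h5 : (Real.log N) ^ B' / Real.log ρ ≤ (N : ℝ) ^ (θ - θ') / (4 * ((J : ℝ) + 1)) := by
      rw [div_le_iff₀ hlρ]
      refine h2.trans (le_of_eq ?_)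
      field_simp
    have h6 : (Real.log N) ^ B' / Real.log ρ * (4 * ((J : ℝ) + 1)) ≤ (N : ℝ) ^ (θ - θ') := by
      rwa [le_div_iff₀ (by positivity)] at h5
    have h7 : 0 ≤ (Real.log N) ^ B' / Real.log ρ := by positivity
    nlinarith
  have hup : ∀ᶠ N : ℕ in atTop, 4 * (Real.log N) ^ C' ≤ (Real.log N) ^ C ∧
      (Real.log N) ^ B ≤ (Real.log N) ^ B' ∧
      (X : ℝ) + X₀ + X₁ + y₀ + 1 / (ρ ^ 2 - ρ) ≤ (Real.log N) ^ C' := by
    have h1 : ∀ᶠ l : ℝ in atTop, 4 * l ^ C' ≤ l ^ C := by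
      have h2 := (tendsto_rpow_atTop (show 0 < C - C' by linarith)).eventually_ge_atTop 4
      filter_upwards [h2, eventually_gt_atTop 0] with l h2 h4
      have h5 : l ^ C = l ^ C' * l ^ (C - C') := by
        rw [← Real.rpow_add h4]; congr 1; ring
      have h6 : 0 < l ^ C' := by positivity
      rw [h5]
      nlinarith
    have h2 : ∀ᶠ l : ℝ in atTop, l ^ B ≤ l ^ B' := by
      filter_upwards [eventually_ge_atTop 1] with l hl
      exact Real.rpow_le_rpow_of_exponent_le hl hBB'.le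
    have h3 := (tendsto_rpow_atTop hC'0).eventually_ge_atTop
      ((X : ℝ) + X₀ + X₁ + y₀ + 1 / (ρ ^ 2 - ρ))
    exact tlog.eventually (h1.and (h2.and h3))
  obtain ⟨N₃, hN₃⟩ := eventually_atTop.1 ((hJev.and hup).and (eventually_ge_atTop 3))
  refine ⟨max (max N₁ N₂) N₃, fun N hN w hw => ?_⟩
  have hNN1 : N₁ ≤ N := ((le_max_left _ _).trans (le_max_left _ _)).trans hN
  have hNN2 : N₂ ≤ N := ((le_max_right _ _).trans (le_max_left _ _)).trans hN
  obtain ⟨⟨hJ, ⟨hup1, hup2, hup3⟩⟩, hN3⟩ := hN₃ N ((le_max_right _ _).trans hN)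
  have hN3' : (3 : ℝ) ≤ N := by exact_mod_cast hN3
  have hN0 : (0 : ℝ) < N := by linarith
  have hl0 : 0 < Real.log N := Real.log_pos (by linarith)
  set Y : ℝ := (Real.log N) ^ B' with hY
  have hY0 : 0 < Y := by positivity
  have hq : 0 < 1 / (ρ ^ 2 - ρ) := by positivity
  set Jg : ℕ := ⌊Y / Real.log ρ⌋₊ + 1 with hJdef
  have hJr : (Jg : ℝ) ≤ (Real.log N) ^ B' / Real.log ρ + 1 := by
    rw [hJdef]
    push_cast
    have : (⌊Y / Real.log ρ⌋₊ : ℝ) ≤ Y / Real.log ρ := Nat.floor_le (by positivity)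
    linarith
  -- the exceptional set at one grid point
  set Bd : ℕ → Finset ℕ := fun j => if (Real.log N) ^ C' ≤ (g ρ j : ℝ) ∧
      (g ρ j : ℝ) ≤ Real.exp Y then
    (Icc 1 N).filter (fun n : ℕ => 5 * e * (Nat.primeCounting (g ρ j) : ℝ) <
        |dev d0 w n (g ρ j)|) else ∅ with hBd
  have hBdc : ∀ j, (#(Bd j) : ℝ) ≤ J * (2 * (N : ℝ) ^ θ') := by
    intro j
    simp only [hBd]
    split_ifs with h
    · have hX₀x : X₀ ≤ g ρ j := by
        have h1 : (X₀ : ℝ) ≤ g ρ j := by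
          have : (0 : ℝ) ≤ X := Nat.cast_nonneg _
          have : (0 : ℝ) ≤ X₁ := Nat.cast_nonneg _
          have : (0 : ℝ) ≤ y₀ := Nat.cast_nonneg _
          linarith [h.1]
        exact_mod_cast h1
      have hX₁x : X₁ ≤ g ρ j := by
        have h1 : (X₁ : ℝ) ≤ g ρ j := by
          have : (0 : ℝ) ≤ X := Nat.cast_nonneg _
          have : (0 : ℝ) ≤ X₀ := Nat.cast_nonneg _
          have : (0 : ℝ) ≤ y₀ := Nat.cast_nonneg _
          linarith [h.1]
        exact_mod_cast h1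
      have hy₀x : y₀ ≤ g ρ j := by
        have h1 : (y₀ : ℝ) ≤ g ρ j := by
          have : (0 : ℝ) ≤ X := Nat.cast_nonneg _
          have : (0 : ℝ) ≤ X₀ := Nat.cast_nonneg _
          have : (0 : ℝ) ≤ X₁ := Nat.cast_nonneg _
          linarith [h.1]
        exact_mod_cast h1
      refine hone (g ρ j) N hX₀x (hsmall N _ (by omega) hX₁x hy₀x h.1) _ ?_ w hw
      intro d hdG hdA hdp
      have k1 := hN₁ N hNN1 ⟨d, hdG, hdA, hdp⟩
      have k2 := hN₂ d hdG hdA hdp N hNN2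
      have hsub : (Icc 1 N).filter (fun m : ℕ => e * (Nat.primeCounting (g ρ j) : ℝ) <
          |(cntE d m (g ρ j) : ℝ) - d.A * (Nat.primeCounting (g ρ j) : ℝ)|) ⊆
          badZ d e C' κ N ∪ badU d e κ B' N := by
        intro m hm
        rw [mem_filter] at hm
        rw [mem_union]
        rcases le_total ((g ρ j : ℕ) : ℝ) (Real.exp ((Real.log N) ^ (1 + κ))) with h6 | h6
        · left
          unfold badZ
          rw [mem_filter]
          exact ⟨hm.1, g ρ j, h.1, h6, hm.2⟩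
        · right
          unfold badU
          rw [mem_filter]
          exact ⟨hm.1, g ρ j, h6, h.2, hm.2⟩
      have k3 : (#((Icc 1 N).filter (fun m : ℕ => e * (Nat.primeCounting (g ρ j) : ℝ) <
          |(cntE d m (g ρ j) : ℝ) - d.A * (Nat.primeCounting (g ρ j) : ℝ)|)) : ℝ) ≤
          (#(badZ d e C' κ N) : ℝ) + #(badU d e κ B' N) := by
        exact_mod_cast (card_le_card hsub).trans (card_union_le _ _)
      have k1' : (#(badZ d e C' κ N) : ℝ) ≤ (N : ℝ) ^ θ' := k1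
      linarith
    · rw [card_empty, Nat.cast_zero]
      positivity
  have hincl : badW d0 w ε C B N ⊆ (range Jg).biUnion Bd := by
    intro n hn
    unfold badW at hn
    rw [mem_filter] at hn
    obtain ⟨hn, x, hxN, hxN', hx⟩ := hn
    have hlC : 0 < (Real.log N) ^ C' := by positivity
    have hx4 : 4 * (Real.log N) ^ C' ≤ x := hup1.trans hxN
    have hx0 : (0 : ℝ) < x := by linarith
    have hx1 : (1 : ℝ) ≤ x := by
      have : 0 < x := by exact_mod_cast hx0
      exact_mod_cast this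
    obtain ⟨j, hj1, hj2⟩ := exists_nat_pow_near hx1 hρ
    have hgx : g ρ j ≤ x := Nat.ceil_le.2 hj1
    have hxg : x ≤ g ρ (j + 1) := by
      have : (x : ℝ) ≤ g ρ (j + 1) := hj2.le.trans (g_ge _)
      exact_mod_cast this
    have hgx' : (g ρ j : ℝ) ≤ x := by exact_mod_cast hgx
    have hgj1 : (x : ℝ) ≤ 4 * g ρ j := by
      calc (x : ℝ) ≤ ρ ^ (j + 1) := hj2.le
        _ = ρ * ρ ^ j := by rw [pow_succ, mul_comm]
        _ ≤ 4 * g ρ j := by
          have := g_ge (ρ := ρ) j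
          have h0 : (0 : ℝ) ≤ g ρ j := Nat.cast_nonneg _
          have : ρ * ρ ^ j ≤ ρ * g ρ j := by gcongr
          nlinarith
    have hglow : (Real.log N) ^ C' ≤ (g ρ j : ℝ) := by linarith
    have hg0 : (0 : ℝ) < g ρ j := by linarith
    have hXnn : (0 : ℝ) ≤ X := Nat.cast_nonneg _
    have hX₀nn : (0 : ℝ) ≤ X₀ := Nat.cast_nonneg _
    have hX₁nn : (0 : ℝ) ≤ X₁ := Nat.cast_nonneg _
    have hy₀nn : (0 : ℝ) ≤ y₀ := Nat.cast_nonneg _
    have hstep : (g ρ (j + 1) : ℝ) ≤ ρ ^ 2 * g ρ j := by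
      refine g_step ?_ hρ
      have h1 : 1 / (ρ ^ 2 - ρ) ≤ g ρ j := by linarith
      rw [div_le_iff₀ hρρ] at h1
      linarith
    have hgup : (g ρ j : ℝ) ≤ Real.exp Y := by
      refine hgx'.trans (hxN'.trans (Real.exp_le_exp.2 hup2))
    have hidx : j < Jg := by
      have h1 : Real.log (g ρ j) ≤ Y := by
        rw [Real.log_le_iff_le_exp hg0]
        exact hgup
      have h2 : Real.log (ρ ^ j) ≤ Real.log (g ρ j) := Real.log_le_log (by positivity) (g_ge j)
      rw [Real.log_pow] at h2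
      have h3 : (j : ℝ) ≤ Y / Real.log ρ := by
        rw [le_div_iff₀ hlρ]
        exact h2.trans h1
      have h4 : j ≤ ⌊Y / Real.log ρ⌋₊ := Nat.le_floor h3
      omega
    rw [mem_biUnion]
    by_contra hcon
    push Not at hcon
    have hn0 := hcon j (mem_range.2 hidx)
    simp only [hBd] at hn0
    rw [if_pos ⟨hglow, hgup⟩, mem_filter, not_and, not_lt] at hn0
    have ha0 := hn0 hn
    have hXg : X ≤ g ρ j := by
      have : (X : ℝ) ≤ g ρ j := by linarith
      exact_mod_cast this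
    have hpij : (Nat.primeCounting (g ρ (j + 1)) : ℝ) ≤ (1 + e) * Nat.primeCounting (g ρ j) :=
      hpi _ _ hXg (hgx.trans hxg) hstep
    have hlip := dev_lip d0 w hw n hgx
    have m1 : (Nat.primeCounting x : ℝ) ≤ Nat.primeCounting (g ρ (j + 1)) := by
      exact_mod_cast Nat.monotone_primeCounting hxg
    have m2 : (Nat.primeCounting (g ρ j) : ℝ) ≤ Nat.primeCounting x := by
      exact_mod_cast Nat.monotone_primeCounting hgx
    have hπ0 : (0 : ℝ) ≤ Nat.primeCounting (g ρ j) := Nat.cast_nonneg _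
    have h7 : |dev d0 w n x| ≤ |dev d0 w n (g ρ j)| + |dev d0 w n x - dev d0 w n (g ρ j)| := by
      have := abs_add_le (dev d0 w n (g ρ j)) (dev d0 w n x - dev d0 w n (g ρ j))
      rwa [add_sub_cancel] at this
    have h8 : e * (Nat.primeCounting (g ρ j) : ℝ) ≤ e * Nat.primeCounting x :=
      mul_le_mul_of_nonneg_left m2 he.le
    have h9 : ε * (Nat.primeCounting x : ℝ) = 8 * (e * Nat.primeCounting x) := by
      rw [hedef]; ring
    have h10 : 0 ≤ e * (Nat.primeCounting (g ρ j) : ℝ) := by positivity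
    linarith
  have h1 : (#(badW d0 w ε C B N) : ℝ) ≤ ∑ j ∈ range Jg, (#(Bd j) : ℝ) := by
    exact_mod_cast (card_le_card hincl).trans card_biUnion_le
  calc (#(badW d0 w ε C B N) : ℝ) ≤ ∑ j ∈ range Jg, (#(Bd j) : ℝ) := h1
    _ ≤ ∑ _j ∈ range Jg, J * (2 * (N : ℝ) ^ θ') := Finset.sum_le_sum fun j _ => hBdc j
    _ = (Jg * (2 * (J : ℝ))) * (N : ℝ) ^ θ' := by
      rw [Finset.sum_const, nsmul_eq_mul, card_range]; ring
    _ ≤ (((Real.log N) ^ B' / Real.log ρ + 1) * (2 * (J : ℝ))) * (N : ℝ) ^ θ' := by gcongr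
    _ ≤ (N : ℝ) ^ (θ - θ') * (N : ℝ) ^ θ' := by gcongr
    _ = (N : ℝ) ^ θ := by
      rw [← Real.rpow_add hN0]; congr 1; ring

end Pool.Agent.K6.H61.SI
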