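import Pool.Agent.K6.H61.SI.Greedy
import Pool.Agent.H771R4.SE.Avg2

set_option autoImplicit false

/-! # From all primes to weighted sums over the primes, at one `x` -/

namespace Pool.Agent.K6.H61.SI

open Finset Filter Topology
open Pool.Agent.H771R4.SE (Dat cntE)
open Pool.Agent.H386R2.Artin (PP Good hL card_PP pi_lower ev1)

/-- the weighted deviation from the sum of the local densities -/
noncomputable def dev (d : Dat) (w : ℕ → ℝ) (n x : ℕ) : ℝ :=
  ∑ p ∈ PP x, w p * (iP (d.Q p (n : ZMod p)) - d.G p)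

lemma cntE_iP (d : Dat) (n x : ℕ) : (cntE d n x : ℝ) = ∑ p ∈ PP x, iP (d.Q p (n : ZMod p)) := by
  classical
  unfold cntE PP
  rw [← Finset.filter_filter, Finset.card_filter, Nat.cast_sum]
  refine Finset.sum_congr rfl fun p _ => ?_
  unfold iP
  split_ifs <;> simp

lemma term_abs (d : Dat) (p : ℕ) (P : Prop) : |iP P - d.G p| ≤ 2 := by
  have h1 := iP_nonneg P
  have h2 := iP_le P
  have h3 := d.G0 p
  have h4 := d.G1 p
  rw [abs_le]
  constructor <;> linarith

lemma ev_recip (e : ℝ) (he : 0 < e) : ∀ᶠ x : ℕ in atTop,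
    ∑ p ∈ PP x, 1 / ((p : ℝ) - 1) ≤ e * Nat.primeCounting x := by
  classical
  obtain ⟨P, hP⟩ := exists_nat_gt (2 / e + 1)
  have h1 : Tendsto (fun x : ℕ => e / 2 * (Nat.primeCounting x : ℝ)) atTop atTop :=
    (tendsto_natCast_atTop_atTop.comp Nat.tendsto_primeCounting).const_mul_atTop (by positivity)
  filter_upwards [h1.eventually_ge_atTop (P : ℝ)] with x hx
  have h2 : ∀ p ∈ PP x, 1 / ((p : ℝ) - 1) ≤ (if p < P then 1 else 0) + e / 2 := by
    intro p hp
    have hpp : p.Prime := (mem_filter.1 hp).2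
    have hp2 : (2 : ℝ) ≤ p := by exact_mod_cast hpp.two_le
    split_ifs with h
    · have : 1 / ((p : ℝ) - 1) ≤ 1 := by
        rw [div_le_one (by linarith)]
        linarith
      linarith
    · push Not at h
      have h3 : (P : ℝ) ≤ p := by exact_mod_cast h
      rw [zero_add, div_le_iff₀ (by linarith)]
      have h4 : 2 / e ≤ p - 1 := by linarith
      rw [div_le_iff₀ he] at h4
      linarith
  refine (Finset.sum_le_sum h2).trans ?_
  rw [Finset.sum_add_distrib, Finset.sum_const, nsmul_eq_mul, card_PP]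
  have h5 : ∑ p ∈ PP x, (if p < P then (1 : ℝ) else 0) ≤ P := by
    rw [← Finset.sum_filter, Finset.sum_const, nsmul_eq_mul, mul_one]
    have : (PP x).filter (fun p => p < P) ⊆ range P := by
      intro p hp
      exact mem_range.2 (mem_filter.1 hp).2
    have := card_le_card this
    rw [card_range] at this
    exact_mod_cast this
  linarith

lemma dvd_count (m N : ℕ) (hm : m ∈ Icc 1 N) (x : ℕ) :
    (#((PP x).filter (fun p : ℕ => (m : ZMod p) = 0)) : ℝ) ≤ 2 * Real.log N := by
  rw [mem_Icc] at hm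
  have h1 : #((PP x).filter (fun p : ℕ => (m : ZMod p) = 0)) ≤ m.primeFactors.card := by
    apply card_le_card
    intro p hp
    rw [mem_filter] at hp
    have hpp : p.Prime := (mem_filter.1 hp.1).2
    rw [Nat.mem_primeFactors]
    exact ⟨hpp, (ZMod.natCast_eq_zero_iff _ _).1 hp.2, by omega⟩
  have h2 : 2 ^ m.primeFactors.card ≤ m := by
    calc 2 ^ m.primeFactors.card = ∏ _p ∈ m.primeFactors, 2 := by rw [Finset.prod_const]
      _ ≤ ∏ p ∈ m.primeFactors, p :=
        Finset.prod_le_prod' fun p hp => (Nat.prime_of_mem_primeFactors hp).two_le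
      _ ≤ m := Nat.le_of_dvd (by omega) (Nat.prod_primeFactors_dvd m)
  have h3 : ((m.primeFactors.card : ℕ) : ℝ) * Real.log 2 ≤ Real.log N := by
    rw [← Real.log_pow]
    apply Real.log_le_log (by positivity)
    exact_mod_cast h2.trans hm.2
  have h4 := Real.log_two_gt_d9
  have h5 : ((m.primeFactors.card : ℕ) : ℝ) ≤ 2 * Real.log N := by
    have h6 : (0 : ℝ) ≤ (m.primeFactors.card : ℕ) := Nat.cast_nonneg _
    nlinarith
  exact le_trans (by exact_mod_cast h1) h5

/-- **one `x`, an arbitrary set of primes** -/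
theorem oneSet (d0 : Dat) (e : ℝ) (he : 0 < e) : ∃ X₀ : ℕ, ∀ x N : ℕ, X₀ ≤ x →
    16 * Real.log N ≤ e * Nat.primeCounting x → ∀ K : ℝ,
    (∀ d : Dat, d.G = d0.G → d.A = d0.A → d.p0 = d0.p0 →
      (#((Icc 1 N).filter (fun m : ℕ => e * (Nat.primeCounting x : ℝ) <
        |(cntE d m x : ℝ) - d.A * (Nat.primeCounting x : ℝ)|)) : ℝ) ≤ K) →
    ∀ PS : Set ℕ, (#((Icc 1 N).filter (fun m : ℕ => 4 * e * (Nat.primeCounting x : ℝ) <
        |dev d0 (fun p => iP (p ∈ PS)) m x|)) : ℝ) ≤ 2 * K := by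
  classical
  have hlim : ∀ᶠ x : ℕ in atTop,
      |∑ p ∈ PP x, d0.G p - d0.A * (Nat.primeCounting x : ℝ)| ≤ e / 2 * Nat.primeCounting x := by
    have h1 := (Metric.tendsto_nhds.1 d0.lim) (e / 2) (by positivity)
    have hπ : ∀ᶠ x : ℕ in atTop, (1 : ℝ) ≤ (Nat.primeCounting x : ℝ) :=
      (tendsto_natCast_atTop_atTop.comp Nat.tendsto_primeCounting).eventually_ge_atTop _
    filter_upwards [h1, hπ] with x h1 h2
    have hP0 : (0 : ℝ) < Nat.primeCounting x := by linarith
    rw [Real.dist_eq] at h1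
    have e1 : ∑ p ∈ PP x, d0.G p - d0.A * (Nat.primeCounting x : ℝ) =
        ((∑ p ∈ PP x, d0.G p) / (Nat.primeCounting x : ℝ) - d0.A) * Nat.primeCounting x := by
      field_simp
    rw [e1, abs_mul, abs_of_pos hP0]
    exact mul_le_mul_of_nonneg_right h1.le hP0.le
  have hbig : ∀ᶠ x : ℕ in atTop, 2 / e ^ 2 + (16 * (d0.p0 : ℝ) + 16) / e ≤ (Nat.primeCounting x : ℝ) :=
    (tendsto_natCast_atTop_atTop.comp Nat.tendsto_primeCounting).eventually_ge_atTop _
  obtain ⟨X₀, hX₀⟩ := eventually_atTop.1 ((hlim.and hbig).and (ev_recip (e / 8) (by positivity)))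
  refine ⟨X₀, fun x N hx hN K hK PS => ?_⟩
  obtain ⟨⟨h1, h2⟩, h3⟩ := hX₀ x hx
  set π : ℝ := (Nat.primeCounting x : ℝ) with hπ
  have hq1 : 0 < 2 / e ^ 2 := by positivity
  have hq2 : 0 < (16 * (d0.p0 : ℝ) + 16) / e := by positivity
  have hπ0 : 0 < π := by linarith
  have hπ2 : 2 ≤ e ^ 2 * π := by
    have : 2 / e ^ 2 ≤ π := by linarith
    rw [div_le_iff₀ (by positivity)] at this
    linarith
  have hπ3 : 16 * (d0.p0 : ℝ) ≤ e * π := by
    have : (16 * (d0.p0 : ℝ) + 16) / e ≤ π := by linarith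
    rw [div_le_iff₀ he] at this
    linarith
  set E : Finset ℕ := (Icc 1 N).filter (fun m : ℕ => 4 * e * π <
        |dev d0 (fun p => iP (p ∈ PS)) m x|) with hE
  set T : Finset ℕ := (PP x).filter (fun p : ℕ => p ∉ PS ∧ d0.p0 ≤ p) with hT
  have hTp : ∀ p ∈ T, p.Prime := fun p hp => (mem_filter.1 (mem_filter.1 hp).1).2
  have hTc : (#T : ℝ) ≤ π := by
    rw [hπ, ← card_PP]
    exact_mod_cast card_filter_le _ _
  obtain ⟨u, hu⟩ := greedy d0 E T hTp
  set F : Finset ℕ := E.filter (fun m => e * π < |∑ p ∈ T, Yv d0 p (u p) m|) with hF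
  have hFc : (#F : ℝ) ≤ #E / 2 := by
    have h4 : (#F : ℝ) * (e * π) ^ 2 ≤ π * #E := by
      calc (#F : ℝ) * (e * π) ^ 2 = ∑ _m ∈ F, (e * π) ^ 2 := by
            rw [Finset.sum_const, nsmul_eq_mul]
        _ ≤ ∑ m ∈ F, (∑ p ∈ T, Yv d0 p (u p) m) ^ 2 := by
            refine Finset.sum_le_sum fun m hm => ?_
            have h5 := (mem_filter.1 hm).2
            rw [← sq_abs (∑ p ∈ T, Yv d0 p (u p) m)]
            exact pow_le_pow_left₀ (by positivity) h5.le 2
        _ ≤ ∑ m ∈ E, (∑ p ∈ T, Yv d0 p (u p) m) ^ 2 :=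
            Finset.sum_le_sum_of_subset_of_nonneg (filter_subset _ _) fun _ _ _ => sq_nonneg _
        _ ≤ #T * #E := hu
        _ ≤ π * #E := mul_le_mul_of_nonneg_right hTc (Nat.cast_nonneg _)
    have h5 : (#F : ℝ) * (e * π) ^ 2 = ((#F : ℝ) * (e ^ 2 * π)) * π := by ring
    rw [h5] at h4
    have h6 : (#F : ℝ) * (e ^ 2 * π) ≤ #E := by
      have h7 : ((#F : ℝ) * (e ^ 2 * π)) * π ≤ #E * π := by linarith
      exact le_of_mul_le_mul_right h7 hπ0
    have h8 : (#F : ℝ) * 2 ≤ #F * (e ^ 2 * π) := mul_le_mul_of_nonneg_left hπ2 (Nat.cast_nonneg _)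
    linarith
  set u' : ∀ p : ℕ, (ZMod p)ˣ := fun p => if p ∈ T then u p else 1 with hu'
  have hsub : E \ F ⊆ (Icc 1 N).filter (fun m : ℕ => e * π <
      |(cntE (twist d0 u') m x : ℝ) - (twist d0 u').A * π|) := by
    intro m hm
    rw [Finset.mem_sdiff] at hm
    obtain ⟨hmE, hmF⟩ := hm
    have hmF' : |∑ p ∈ T, Yv d0 p (u p) m| ≤ e * π := by
      by_contra hcon
      push Not at hcon
      exact hmF (mem_filter.2 ⟨hmE, hcon⟩)
    have hm1 := (mem_filter.1 hmE).1
    have hm2 := (mem_filter.1 hmE).2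
    rw [mem_filter]
    refine ⟨hm1, ?_⟩
    rw [cntE_iP]
    -- the decomposition
    set a : ℕ → ℝ := fun p => iP (d0.Q p ((u' p : ZMod p) * (m : ZMod p))) - d0.G p with ha
    have e1 : ∑ p ∈ PP x, iP ((twist d0 u').Q p (m : ZMod p)) - (twist d0 u').A * π =
        ∑ p ∈ PP x, a p + (∑ p ∈ PP x, d0.G p - d0.A * π) := by
      simp only [ha, Finset.sum_sub_distrib]
      change ∑ p ∈ PP x, iP (d0.Q p ((u' p : ZMod p) * (m : ZMod p))) - d0.A * π = _
      ring
    have e2 : ∑ p ∈ PP x, a p = dev d0 (fun p => iP (p ∈ PS)) m x + ∑ p ∈ T, a p +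
        ∑ p ∈ (PP x).filter (fun p : ℕ => p ∉ PS ∧ ¬ d0.p0 ≤ p), a p := by
      have e3 : dev d0 (fun p => iP (p ∈ PS)) m x = ∑ p ∈ (PP x).filter (fun p => p ∈ PS), a p := by
        unfold dev
        rw [Finset.sum_filter]
        refine Finset.sum_congr rfl fun p _ => ?_
        beta_reduce
        split_ifs with h
        · rw [iP_true h, one_mul]
          have h5 : u' p = 1 := by
            simp only [hu']
            rw [if_neg]
            intro h6
            exact (mem_filter.1 h6).2.1 h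
          simp only [ha, h5, Units.val_one, one_mul]
        · rw [iP_false h, zero_mul]
      rw [e3, hT, add_assoc, ← Finset.sum_filter_add_sum_filter_not (PP x) (fun p => p ∈ PS)]
      congr 1
      rw [← Finset.sum_filter_add_sum_filter_not ((PP x).filter (fun p => p ∉ PS))
        (fun p => d0.p0 ≤ p), Finset.filter_filter, Finset.filter_filter]
    have e4 : |∑ p ∈ (PP x).filter (fun p : ℕ => p ∉ PS ∧ ¬ d0.p0 ≤ p), a p| ≤ 2 * d0.p0 := by
      refine (Finset.abs_sum_le_sum_abs _ _).trans ?_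
      refine (Finset.sum_le_sum fun p _ => term_abs d0 p _).trans ?_
      rw [Finset.sum_const, nsmul_eq_mul, mul_comm]
      apply mul_le_mul_of_nonneg_left _ (by norm_num)
      have h5 : (PP x).filter (fun p : ℕ => p ∉ PS ∧ ¬ d0.p0 ≤ p) ⊆ range d0.p0 := by
        intro p hp
        rw [mem_filter] at hp
        rw [mem_range]
        omega
      have h6 := card_le_card h5
      rw [card_range] at h6
      exact_mod_cast h6
    have e5 : |∑ p ∈ T, a p| ≤ e * π + (e / 8 * π + 4 * Real.log N) := by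
      have e6 : ∑ p ∈ T, a p = ∑ p ∈ T, Yv d0 p (u p) m + ∑ p ∈ T, (a p - Yv d0 p (u p) m) := by
        rw [← Finset.sum_add_distrib]
        exact Finset.sum_congr rfl fun p _ => by ring
      rw [e6]
      refine (abs_add_le _ _).trans (add_le_add hmF' ?_)
      refine (Finset.abs_sum_le_sum_abs _ _).trans ?_
      have e7 : ∀ p ∈ T, |a p - Yv d0 p (u p) m| ≤
          1 / ((p : ℝ) - 1) + (if (m : ZMod p) = 0 then 2 else 0) := by
        intro p hp
        have hpp := hTp p hp
        have hp2 : (2 : ℝ) ≤ p := by exact_mod_cast hpp.two_le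
        have h5 : u' p = u p := by
          simp only [hu']
          rw [if_pos hp]
        have h6 : 0 ≤ 1 / ((p : ℝ) - 1) := by
          apply div_nonneg <;> linarith
        simp only [ha, h5]
        unfold Yv
        split_ifs with h
        · rw [sub_zero]
          have := term_abs d0 p (d0.Q p ((u p : ZMod p) * (m : ZMod p)))
          linarith
        · have h7 := mu_G d0 p hpp (mem_filter.1 hp).2.2
          have h8 : iP (d0.Q p ((u p : ZMod p) * (m : ZMod p))) - d0.G p -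
              (iP (d0.Q p ((u p : ZMod p) * (m : ZMod p))) - mu d0 p) = mu d0 p - d0.G p := by ring
          rw [h8]
          linarith
      refine (Finset.sum_le_sum e7).trans ?_
      rw [Finset.sum_add_distrib]
      have hTsub : T ⊆ PP x := filter_subset _ _
      apply add_le_add
      · refine le_trans ?_ h3
        refine Finset.sum_le_sum_of_subset_of_nonneg hTsub fun p hp _ => ?_
        have hp2 : (2 : ℝ) ≤ p := by exact_mod_cast (mem_filter.1 hp).2.two_le
        apply div_nonneg <;> linarith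
      · rw [← Finset.sum_filter, Finset.sum_const, nsmul_eq_mul]
        have h9 := dvd_count m N hm1 x
        have h10 : #(T.filter (fun p : ℕ => (m : ZMod p) = 0)) ≤
            #((PP x).filter (fun p : ℕ => (m : ZMod p) = 0)) :=
          card_le_card (filter_subset_filter _ hTsub)
        have h11 : (#(T.filter (fun p : ℕ => (m : ZMod p) = 0)) : ℝ) ≤
            #((PP x).filter (fun p : ℕ => (m : ZMod p) = 0)) := by exact_mod_cast h10
        linarith
    rw [e1, e2]
    rw [abs_le] at e4 e5 h1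
    rcases lt_abs.1 hm2 with h12 | h12
    · refine lt_of_lt_of_le ?_ (le_abs_self _)
      nlinarith [e4.1, e5.1, h1.1]
    · refine lt_of_lt_of_le ?_ (neg_le_abs _)
      nlinarith [e4.2, e5.2, h1.2]
  have hfin := hK (twist d0 u') rfl rfl rfl
  have hc1 : (#(E \ F) : ℝ) ≤ K := le_trans (by exact_mod_cast card_le_card hsub) hfin
  have hc2 : #(E \ F) + #F = #E := card_sdiff_add_card_eq_card (filter_subset _ _)
  have hc3 : (#(E \ F) : ℝ) + #F = #E := by exact_mod_cast hc2
  linarith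

/-- level sets -/
lemma level (J : ℕ) (hJ : 0 < J) (w : ℝ) (h0 : 0 ≤ w) (h1 : w ≤ 1) :
    |w - ∑ j ∈ range J, (1 / (J : ℝ)) * iP ((j : ℝ) / J < w)| ≤ 1 / J := by
  classical
  have hJ0 : (0 : ℝ) < J := by exact_mod_cast hJ
  have e1 : ∑ j ∈ range J, (1 / (J : ℝ)) * iP ((j : ℝ) / J < w) =
      (1 / (J : ℝ)) * (⌈w * J⌉₊ : ℝ) := by
    rw [← Finset.mul_sum]
    congr 1
    have e2 : ∑ j ∈ range J, iP ((j : ℝ) / J < w) = ((#(range ⌈w * J⌉₊) : ℕ) : ℝ) := by
      have e3 : range ⌈w * J⌉₊ = (range J).filter (fun j : ℕ => (j : ℝ) / J < w) := by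
        ext j
        rw [mem_filter, mem_range, mem_range, Nat.lt_ceil, div_lt_iff₀ hJ0]
        constructor
        · intro h
          refine ⟨?_, h⟩
          have : (j : ℝ) < J := by nlinarith
          exact_mod_cast this
        · exact fun h => h.2
      rw [e3, Finset.card_filter, Nat.cast_sum]
      refine Finset.sum_congr rfl fun j _ => ?_
      unfold iP
      split_ifs <;> simp
    rw [e2, card_range]
  rw [e1]
  have h2 := Nat.le_ceil (w * J)
  have h3 := Nat.ceil_lt_add_one (show 0 ≤ w * J by positivity)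
  have e4 : w - 1 / (J : ℝ) * (⌈w * J⌉₊ : ℝ) = -(((⌈w * J⌉₊ : ℝ) - w * J) / J) := by
    field_simp
    ring
  rw [e4, abs_neg, abs_of_nonneg (div_nonneg (by linarith) hJ0.le)]
  gcongr
  linarith

/-- **one `x`, arbitrary weights** -/
theorem oneW (d0 : Dat) (e : ℝ) (he : 0 < e) : ∃ X₀ J : ℕ, ∀ x N : ℕ, X₀ ≤ x →
    16 * Real.log N ≤ e * Nat.primeCounting x → ∀ K : ℝ,
    (∀ d : Dat, d.G = d0.G → d.A = d0.A → d.p0 = d0.p0 →
      (#((Icc 1 N).filter (fun m : ℕ => e * (Nat.primeCounting x : ℝ) <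
        |(cntE d m x : ℝ) - d.A * (Nat.primeCounting x : ℝ)|)) : ℝ) ≤ K) →
    ∀ w : ℕ → ℝ, (∀ p, 0 ≤ w p ∧ w p ≤ 1) →
      (#((Icc 1 N).filter (fun m : ℕ => 5 * e * (Nat.primeCounting x : ℝ) <
        |dev d0 w m x|)) : ℝ) ≤ J * K := by
  classical
  obtain ⟨X₀, hX₀⟩ := oneSet d0 e he
  obtain ⟨J, hJ⟩ := exists_nat_gt (2 / e)
  have hJ0 : (0 : ℝ) < J := lt_trans (by positivity) hJ
  have hJ1 : 0 < J := by exact_mod_cast hJ0
  refine ⟨X₀, 2 * J, fun x N hx hN K hK w hw => ?_⟩
  set π : ℝ := (Nat.primeCounting x : ℝ) with hπ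
  have hπ0 : 0 ≤ π := Nat.cast_nonneg _
  have hs := hX₀ x N hx hN K hK
  set Bj : ℕ → Finset ℕ := fun j => (Icc 1 N).filter (fun m : ℕ => 4 * e * π <
        |dev d0 (fun p => iP (p ∈ {p : ℕ | (j : ℝ) / J < w p})) m x|) with hBj
  have hsub : (Icc 1 N).filter (fun m : ℕ => 5 * e * π < |dev d0 w m x|) ⊆
      (range J).biUnion Bj := by
    intro m hm
    rw [mem_filter] at hm
    obtain ⟨hm1, hm2⟩ := hm
    by_contra hcon
    rw [mem_biUnion] at hcon
    push Not at hcon
    have h1 : ∀ j ∈ range J, |dev d0 (fun p => iP ((j : ℝ) / J < w p)) m x| ≤ 4 * e * π := by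
      intro j hj
      have h2 := hcon j hj
      simp only [hBj] at h2
      rw [mem_filter, not_and, not_lt] at h2
      exact h2 hm1
    have e1 : dev d0 w m x = ∑ j ∈ range J, (1 / (J : ℝ)) * dev d0 (fun p => iP ((j : ℝ) / J < w p)) m x +
        ∑ p ∈ PP x, (w p - ∑ j ∈ range J, (1 / (J : ℝ)) * iP ((j : ℝ) / J < w p)) *
          (iP (d0.Q p (m : ZMod p)) - d0.G p) := by
      have e2 : ∑ j ∈ range J, (1 / (J : ℝ)) * dev d0 (fun p => iP ((j : ℝ) / J < w p)) m x =
          ∑ p ∈ PP x, (∑ j ∈ range J, (1 / (J : ℝ)) * iP ((j : ℝ) / J < w p)) *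
            (iP (d0.Q p (m : ZMod p)) - d0.G p) := by
        unfold dev
        simp_rw [Finset.mul_sum, Finset.sum_mul]
        rw [Finset.sum_comm]
        refine Finset.sum_congr rfl fun p _ => Finset.sum_congr rfl fun j _ => by ring
      rw [e2, ← Finset.sum_add_distrib]
      unfold dev
      exact Finset.sum_congr rfl fun p _ => by ring
    have h3 : |∑ j ∈ range J, (1 / (J : ℝ)) * dev d0 (fun p => iP ((j : ℝ) / J < w p)) m x| ≤
        4 * e * π := by
      refine (Finset.abs_sum_le_sum_abs _ _).trans ?_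
      calc ∑ j ∈ range J, |(1 / (J : ℝ)) * dev d0 (fun p => iP ((j : ℝ) / J < w p)) m x|
          ≤ ∑ _j ∈ range J, (1 / (J : ℝ)) * (4 * e * π) := by
            refine Finset.sum_le_sum fun j hj => ?_
            rw [abs_mul, abs_of_pos (show 0 < 1 / (J : ℝ) by positivity)]
            exact mul_le_mul_of_nonneg_left (h1 j hj) (by positivity)
        _ = 4 * e * π := by
            rw [Finset.sum_const, nsmul_eq_mul, card_range]
            field_simp
    have h4 : |∑ p ∈ PP x, (w p - ∑ j ∈ range J, (1 / (J : ℝ)) * iP ((j : ℝ) / J < w p)) *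
          (iP (d0.Q p (m : ZMod p)) - d0.G p)| ≤ e * π := by
      refine (Finset.abs_sum_le_sum_abs _ _).trans ?_
      calc ∑ p ∈ PP x, |(w p - ∑ j ∈ range J, (1 / (J : ℝ)) * iP ((j : ℝ) / J < w p)) *
          (iP (d0.Q p (m : ZMod p)) - d0.G p)| ≤ ∑ _p ∈ PP x, (1 / (J : ℝ)) * 2 := by
            refine Finset.sum_le_sum fun p _ => ?_
            rw [abs_mul]
            exact mul_le_mul (level J hJ1 (w p) (hw p).1 (hw p).2) (term_abs d0 p _)
              (abs_nonneg _) (by positivity)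
        _ = π * (2 / J) := by
            rw [Finset.sum_const, nsmul_eq_mul, card_PP]
            ring
        _ ≤ π * e := by
            apply mul_le_mul_of_nonneg_left _ hπ0
            rw [div_lt_iff₀ he] at hJ
            rw [div_le_iff₀ hJ0]
            linarith
        _ = e * π := mul_comm _ _
    have h5 := abs_add_le (∑ j ∈ range J, (1 / (J : ℝ)) * dev d0 (fun p => iP ((j : ℝ) / J < w p)) m x)
      (∑ p ∈ PP x, (w p - ∑ j ∈ range J, (1 / (J : ℝ)) * iP ((j : ℝ) / J < w p)) *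
          (iP (d0.Q p (m : ZMod p)) - d0.G p))
    rw [← e1] at h5
    linarith
  have hc : (#((Icc 1 N).filter (fun m : ℕ => 5 * e * π < |dev d0 w m x|)) : ℝ) ≤
      ∑ j ∈ range J, (#(Bj j) : ℝ) := by
    exact_mod_cast (card_le_card hsub).trans card_biUnion_le
  refine hc.trans ?_
  calc ∑ j ∈ range J, (#(Bj j) : ℝ) ≤ ∑ _j ∈ range J, 2 * K :=
        Finset.sum_le_sum fun j _ => hs {p : ℕ | (j : ℝ) / J < w p}
    _ = ((2 * J : ℕ) : ℝ) * K := by
      rw [Finset.sum_const, nsmul_eq_mul, card_range]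
      push_cast
      ring

end Pool.Agent.K6.H61.SI
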