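import Pool.Agent.K6.H61.SI.MainL
import Pool.Agent.H771R4.SE.Datum

set_option autoImplicit false

/-! # The density of the primes of a progression with several given primitive roots -/

namespace Pool.Agent.K6.H61.SI

open Finset Filter Topology
open Pool.Agent.H730R2.AA (rho PR wsum_tendsto recip)
open Pool.Agent.H386R2.Artin (PP hL gL gL_nonneg gL_le_one sumH card_PP)

/-- the primes that divide `D i` for an odd number of the `i ∈ U` -/
noncomputable def TU {r : ℕ} (D : Fin r → ℤ) (U : Finset (Fin r)) : Finset ℕ :=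
  (∏ i, (D i).natAbs).primeFactors.filter (fun q => Odd #(U.filter (fun i => (q : ℤ) ∣ D i)))

lemma jac_sqf (a : ℤ) (n : ℕ) (hn : Squarefree n) :
    jacobiSym a n = ∏ q ∈ n.primeFactors, jacobiSym a q := by
  classical
  have key : ∀ s : Finset ℕ, (∀ q ∈ s, q.Prime) →
      jacobiSym a (∏ q ∈ s, q) = ∏ q ∈ s, jacobiSym a q := by
    intro s
    induction s using Finset.induction_on with
    | empty => intro _; simp
    | insert q s hq ih =>
      intro h
      have hqp := h q (mem_insert_self _ _)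
      have h2 : ∏ l ∈ s, l ≠ 0 := Finset.prod_ne_zero_iff.2 fun l hl => (h l (mem_insert_of_mem hl)).ne_zero
      have : NeZero q := ⟨hqp.ne_zero⟩
      have : NeZero (∏ l ∈ s, l) := ⟨h2⟩
      rw [Finset.prod_insert hq, Finset.prod_insert hq, jacobiSym.mul_right,
        ih fun l hl => h l (mem_insert_of_mem hl)]
  conv_lhs => rw [← Nat.prod_primeFactors_of_squarefree hn]
  exact key _ fun q hq => Nat.prime_of_mem_primeFactors hq

lemma pow_of_sq (z : ℤ) (hz : z * z = 1) (n : ℕ) : z ^ n = if Odd n then z else 1 := by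
  split_ifs with h
  · obtain ⟨k, rfl⟩ := h
    rw [pow_succ, pow_mul, sq, hz, one_pow, one_mul]
  · rw [Nat.not_odd_iff_even] at h
    obtain ⟨k, rfl⟩ := h
    rw [← two_mul, pow_mul, sq, hz, one_pow]

lemma jac_prod {r : ℕ} (D : Fin r → ℤ) (hD : ∀ i, Squarefree (D i) ∧ D i % 4 = 1)
    (U : Finset (Fin r)) (p : ℕ) (hp : p.Prime) (hp2 : p ≠ 2) (hpD : ∀ i, ¬ (p : ℤ) ∣ D i) :
    ∏ i ∈ U, jacobiSym (D i) p = ∏ q ∈ TU D U, jacobiSym (p : ℤ) q := by
  classical
  set Pr : Finset ℕ := (∏ i, (D i).natAbs).primeFactors with hPr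
  have hne : ∀ i, (D i).natAbs ≠ 0 := fun i => Int.natAbs_ne_zero.2 (hD i).1.ne_zero
  have h1 : ∀ i ∈ U, jacobiSym (D i) p =
      ∏ q ∈ Pr, if (q : ℤ) ∣ D i then jacobiSym (p : ℤ) q else 1 := by
    intro i _
    rw [recip (D i) (hD i).2 p hp hp2, jac_sqf _ _ (Int.squarefree_natAbs.2 (hD i).1),
      ← Finset.prod_filter]
    refine Finset.prod_congr ?_ fun _ _ => rfl
    ext q
    rw [mem_filter, hPr, Nat.mem_primeFactors, Nat.mem_primeFactors, Int.natCast_dvd]
    constructor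
    · rintro ⟨h2, h3, h4⟩
      exact ⟨⟨h2, h3.trans (Finset.dvd_prod_of_mem _ (mem_univ i)),
        Finset.prod_ne_zero_iff.2 fun j _ => hne j⟩, h3⟩
    · rintro ⟨⟨h2, -, -⟩, h3⟩
      exact ⟨h2, h3, hne i⟩
  rw [Finset.prod_congr rfl h1, Finset.prod_comm]
  unfold TU
  rw [← hPr, Finset.prod_filter]
  refine Finset.prod_congr rfl fun q hq => ?_
  have hqp : q.Prime := Nat.prime_of_mem_primeFactors hq
  have : Fact q.Prime := ⟨hqp⟩
  rw [← Finset.prod_filter, Finset.prod_const]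
  apply pow_of_sq
  -- the symbol is 1 or -1
  have hpq : p ≠ q := by
    rintro rfl
    have h2 := Nat.dvd_of_mem_primeFactors hq
    rw [hp.prime.dvd_finset_prod_iff] at h2
    obtain ⟨i, -, h3⟩ := h2
    exact hpD i (Int.natCast_dvd.2 h3)
  have h3 : Int.gcd (p : ℤ) q = 1 := by
    rw [Int.gcd_natCast_natCast]
    exact (Nat.coprime_primes hp hqp).2 hpq
  have h4 := jacobiSym.sq_one h3
  rw [← sq]
  exact h4

/-- the density -/
noncomputable def dens {r : ℕ} (D : Fin r → ℤ) (f a : ℕ) : ℝ :=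
  (1 / (f.totient : ℝ)) * gf r f a * EP r f * ∑ U : Finset (Fin r), (-1 : ℝ) ^ #U *
    ∏ q ∈ TU D U, (if q ∣ f then Jr a q else -(cc r q) / (1 - cc r q))

/-- the local density at `p` of the integers `D m²` -/
noncomputable def gd (D : ℤ) (p : ℕ) : ℝ :=
  if p = 2 ∨ (p : ℤ) ∣ D then 0
  else (1 - Jr D p) * ((Nat.totient (p - 1) : ℝ) / ((p - 1 : ℕ) : ℝ))

lemma gd_eq (D : ℤ) (hD : Squarefree D) (hD4 : D % 4 = 1) (hD1 : D ≠ 1) (p : ℕ) (hp : p.Prime) :
    gd D p = (Pool.Agent.H771R4.SE.dSq D hD hD4 hD1).G p := by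
  change gd D p = if p ∈ PR D p then rho p * (1 - (jacobiSym D p : ℝ)) else 0
  unfold gd PR Jr rho
  by_cases h : p = 2 ∨ (p : ℤ) ∣ D
  · rw [if_pos h, if_neg]
    rw [mem_filter]
    rintro ⟨-, -, h1, h2⟩
    exact h.elim h1 h2
  · rw [if_neg h, if_pos]
    · ring
    · push Not at h
      rw [mem_filter, mem_range]
      exact ⟨by omega, hp, h.1, h.2⟩

theorem dens_lim {r : ℕ} (hr : 0 < r) (D : Fin r → ℤ) (hD : ∀ i, Squarefree (D i) ∧ D i % 4 = 1)
    (f a : ℕ) (hf : 0 < f) (ha : a.Coprime f) :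
    Tendsto (fun x : ℕ => (∑ p ∈ (PP x).filter (fun p => p ≡ a [MOD f]), ∏ i, gd (D i) p) /
      (Nat.primeCounting x : ℝ)) atTop (𝓝 (dens D f a)) := by
  classical
  set Dt : ℤ := ∏ i, D i with hDt
  have hDt0 : Dt ≠ 0 := Finset.prod_ne_zero_iff.2 fun i _ => (hD i).1.ne_zero
  have hodd : ∀ U : Finset (Fin r), ∀ q ∈ TU D U, q.Prime ∧ q ≠ 2 := by
    intro U q hq
    unfold TU at hq
    rw [mem_filter] at hq
    have hqp := Nat.prime_of_mem_primeFactors hq.1
    refine ⟨hqp, ?_⟩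
    rintro rfl
    have h2 := Nat.dvd_of_mem_primeFactors hq.1
    rw [hqp.prime.dvd_finset_prod_iff] at h2
    obtain ⟨i, -, h3⟩ := h2
    have h4 : (2 : ℤ) ∣ D i := Int.natCast_dvd.2 h3
    have := (hD i).2
    omega
  have hsum : ∀ x : ℕ, ∑ p ∈ (PP x).filter (fun p => p ≡ a [MOD f]), ∏ i, gd (D i) p =
      ∑ U : Finset (Fin r), (-1 : ℝ) ^ #U * AT Dt r (TU D U) f a x := by
    intro x
    have e1 : ∑ p ∈ (PP x).filter (fun p => p ≡ a [MOD f]), ∏ i, gd (D i) p =
        ∑ p ∈ (PR Dt x).filter (fun p => p ≡ a [MOD f]), ∏ i, gd (D i) p := by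
      symm
      apply Finset.sum_subset
      · intro p hp
        unfold PR at hp
        unfold PP
        rw [mem_filter, mem_filter] at hp
        rw [mem_filter, mem_filter]
        exact ⟨⟨hp.1.1, hp.1.2.1⟩, hp.2⟩
      · intro p hp hnp
        unfold PP at hp
        unfold PR at hnp
        rw [mem_filter, mem_filter] at hp
        rw [mem_filter, mem_filter] at hnp
        have h2 : p = 2 ∨ (p : ℤ) ∣ Dt := by
          by_contra hcon
          push Not at hcon
          exact hnp ⟨⟨hp.1.1, hp.1.2, hcon.1, hcon.2⟩, hp.2⟩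
        rcases h2 with h2 | h2
        · apply Finset.prod_eq_zero (i := (⟨0, hr⟩ : Fin r)) (mem_univ _)
          unfold gd
          rw [if_pos (Or.inl h2)]
        · have hpp : Prime (p : ℤ) := Nat.prime_iff_prime_int.1 hp.1.2
          rw [hDt, hpp.dvd_finset_prod_iff] at h2
          obtain ⟨i, -, h3⟩ := h2
          apply Finset.prod_eq_zero (mem_univ i)
          unfold gd
          rw [if_pos (Or.inr h3)]
    rw [e1]
    have e2 : ∀ p ∈ (PR Dt x).filter (fun p => p ≡ a [MOD f]), ∏ i, gd (D i) p =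
        ∑ U : Finset (Fin r), (-1 : ℝ) ^ #U * (rho p ^ r * ∏ q ∈ TU D U, Jr p q) := by
      intro p hp
      unfold PR at hp
      rw [mem_filter, mem_filter] at hp
      obtain ⟨⟨-, hpp, hp2, hpD⟩, -⟩ := hp
      have hpD' : ∀ i, ¬ (p : ℤ) ∣ D i := fun i h => hpD (h.trans (Finset.dvd_prod_of_mem _ (mem_univ i)))
      have e3 : ∏ i, gd (D i) p = rho p ^ r * ∏ i, (1 + -(Jr (D i) p)) := by
        have e4 : ∀ i ∈ (univ : Finset (Fin r)), gd (D i) p = rho p * (1 + -(Jr (D i) p)) := by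
          intro i _
          unfold gd rho
          rw [if_neg (by
            push Not
            exact ⟨hp2, hpD' i⟩)]
          ring
        rw [Finset.prod_congr rfl e4, Finset.prod_mul_distrib, Finset.prod_const, card_univ,
          Fintype.card_fin]
      rw [e3, Finset.prod_one_add, ← Finset.powerset_univ, Finset.mul_sum]
      refine Finset.sum_congr rfl fun U _ => ?_
      have e5 : ∏ i ∈ U, -(Jr (D i) p) = (-1 : ℝ) ^ #U * ∏ q ∈ TU D U, Jr p q := by
        rw [Finset.prod_neg]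
        congr 1
        have h5 := jac_prod D hD U p hpp hp2 hpD'
        unfold Jr
        exact_mod_cast h5
      rw [e5]
      ring
    rw [Finset.sum_congr rfl e2, Finset.sum_comm]
    refine Finset.sum_congr rfl fun U _ => ?_
    rw [← Finset.mul_sum]
    rfl
  have hlim : Tendsto (fun x : ℕ => ∑ U : Finset (Fin r), (-1 : ℝ) ^ #U *
      (AT Dt r (TU D U) f a x / (Nat.primeCounting x : ℝ))) atTop
      (𝓝 (∑ U : Finset (Fin r), (-1 : ℝ) ^ #U * dT r (TU D U) f a)) :=
    tendsto_finsetSum _ fun U _ => (lim_T Dt hDt0 r f a (TU D U) hf ha (hodd U)).const_mul _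
  have e6 : ∑ U : Finset (Fin r), (-1 : ℝ) ^ #U * dT r (TU D U) f a = dens D f a := by
    unfold dens dT
    rw [Finset.mul_sum]
    refine Finset.sum_congr rfl fun U _ => ?_
    ring
  rw [e6] at hlim
  refine hlim.congr fun x => ?_
  rw [hsum, Finset.sum_div]
  refine Finset.sum_congr rfl fun U _ => ?_
  ring

/-- for one base and all primes this is the density of the problem -/
theorem dens_one (D : ℤ) (hD : Squarefree D) (hD4 : D % 4 = 1) (hD1 : D ≠ 1) :
    dens (fun _ : Fin 1 => D) 1 1 = Pool.Agent.H730R2.AA.dens D := by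
  have h1 := dens_lim Nat.one_pos (fun _ : Fin 1 => D) (fun _ => ⟨hD, hD4⟩) 1 1 Nat.one_pos
    (Nat.coprime_one_right 1)
  have h2 := (Pool.Agent.H771R4.SE.dSq D hD hD4 hD1).lim
  refine tendsto_nhds_unique h1 (h2.congr fun x => ?_)
  congr 1
  have e1 : (PP x).filter (fun p => p ≡ 1 [MOD 1]) = PP x := by
    apply Finset.filter_true_of_mem
    intro p _
    exact Nat.modEq_one
  rw [e1]
  refine Finset.sum_congr rfl fun p hp => ?_
  rw [Fin.prod_univ_one, gd_eq D hD hD4 hD1 p (mem_filter.1 hp).2]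

end Pool.Agent.K6.H61.SI
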