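import Mathlib
import Pool.Agent.H771R4.SE.Datum


set_option autoImplicit false

/-! # Twisting a counting problem by units, chosen such that the contribution of a set of primes is small -/

namespace Pool.Agent.K6.H61.SI

open Finset
open Pool.Agent.H771R4.SE (Dat)
open Pool.Agent.H386R2.Artin (PP Good hL)

/-- the indicator function of a condition -/
noncomputable def iP (P : Prop) : ℝ := by
  classical
  exact if P then 1 else 0

lemma iP_true {P : Prop} (h : P) : iP P = 1 := by unfold iP; rw [if_pos h]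

lemma iP_false {P : Prop} (h : ¬ P) : iP P = 0 := by unfold iP; rw [if_neg h]

lemma iP_nonneg (P : Prop) : 0 ≤ iP P := by unfold iP; split_ifs <;> norm_num

lemma iP_le (P : Prop) : iP P ≤ 1 := by unfold iP; split_ifs <;> norm_num

/-- the mean value of the condition over the units -/
noncomputable def mu (d : Dat) (p : ℕ) : ℝ :=
  (Nat.card {v : (ZMod p)ˣ // d.Q p (v : ZMod p)} : ℝ) / (Nat.card (ZMod p)ˣ : ℝ)

/-- the centred variable -/
noncomputable def Yv (d : Dat) (p : ℕ) (u : (ZMod p)ˣ) (m : ℕ) : ℝ := by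
  classical
  exact if (m : ZMod p) = 0 then 0 else iP (d.Q p ((u : ZMod p) * (m : ZMod p))) - mu d p

lemma mu_bd (d : Dat) (p : ℕ) [Fact p.Prime] : 0 ≤ mu d p ∧ mu d p ≤ 1 := by
  unfold mu
  have h0 : 0 < Nat.card (ZMod p)ˣ := Nat.card_pos
  refine ⟨by positivity, ?_⟩
  rw [div_le_one (by exact_mod_cast h0)]
  exact_mod_cast Nat.card_le_card_of_injective (fun v : {v : (ZMod p)ˣ // d.Q p (v : ZMod p)} => v.1)
    Subtype.val_injective

lemma Yv_abs (d : Dat) (p : ℕ) [Fact p.Prime] (u : (ZMod p)ˣ) (m : ℕ) : |Yv d p u m| ≤ 1 := by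
  have h1 := mu_bd d p
  have h2 := iP_nonneg (d.Q p ((u : ZMod p) * (m : ZMod p)))
  have h3 := iP_le (d.Q p ((u : ZMod p) * (m : ZMod p)))
  unfold Yv
  split_ifs
  · simp
  · rw [abs_le]
    constructor <;> linarith [h1.1, h1.2]

lemma Yv_sum (d : Dat) (p : ℕ) [Fact p.Prime] (m : ℕ) : ∑ u : (ZMod p)ˣ, Yv d p u m = 0 := by
  classical
  by_cases hm : (m : ZMod p) = 0
  · unfold Yv
    simp [hm]
  · have h1 : ∀ u : (ZMod p)ˣ, Yv d p u m = iP (d.Q p ((u : ZMod p) * (m : ZMod p))) - mu d p := by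
      intro u
      unfold Yv
      rw [if_neg hm]
    rw [Finset.sum_congr rfl fun u _ => h1 u, Finset.sum_sub_distrib, Finset.sum_const, card_univ,
      nsmul_eq_mul]
    have h2 : ∑ u : (ZMod p)ˣ, iP (d.Q p ((u : ZMod p) * (m : ZMod p))) =
        ∑ u : (ZMod p)ˣ, iP (d.Q p (u : ZMod p)) := by
      refine Fintype.sum_equiv (Equiv.mulRight (Units.mk0 _ hm)) _ _ fun u => ?_
      simp
    have h3 : ∑ u : (ZMod p)ˣ, iP (d.Q p (u : ZMod p)) =
        (Nat.card {v : (ZMod p)ˣ // d.Q p (v : ZMod p)} : ℝ) := by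
      rw [Nat.card_eq_fintype_card, Fintype.card_subtype, Finset.card_filter, Nat.cast_sum]
      refine Finset.sum_congr rfl fun u _ => ?_
      unfold iP
      split_ifs <;> simp
    rw [h2, h3]
    unfold mu
    have h0 : (Nat.card (ZMod p)ˣ : ℝ) ≠ 0 := by exact_mod_cast (Nat.card_pos (α := (ZMod p)ˣ)).ne'
    rw [Nat.card_eq_fintype_card] at h0 ⊢
    field_simp
    simp

/-- **the greedy choice of the units** -/
theorem greedy (d : Dat) (E : Finset ℕ) (T : Finset ℕ) (hT : ∀ p ∈ T, p.Prime) :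
    ∃ u : ∀ p : ℕ, (ZMod p)ˣ, ∑ m ∈ E, (∑ p ∈ T, Yv d p (u p) m) ^ 2 ≤ (#T : ℝ) * #E := by
  classical
  induction T using Finset.induction_on with
  | empty =>
    refine ⟨fun _ => 1, ?_⟩
    simp
  | insert p T hpT ih =>
    obtain ⟨u, hu⟩ := ih fun q hq => hT q (mem_insert_of_mem hq)
    have : Fact p.Prime := ⟨hT p (mem_insert_self _ _)⟩
    set S : ℕ → ℝ := fun m => ∑ q ∈ T, Yv d q (u q) m with hS
    have h1 : ∑ v : (ZMod p)ˣ, ∑ m ∈ E, (S m + Yv d p v m) ^ 2 ≤
        ∑ _v : (ZMod p)ˣ, ((#T : ℝ) * #E + #E) := by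
      have e1 : ∀ v : (ZMod p)ˣ, ∑ m ∈ E, (S m + Yv d p v m) ^ 2 ≤
          ∑ m ∈ E, (S m) ^ 2 + ∑ m ∈ E, 2 * (S m * Yv d p v m) + #E := by
        intro v
        rw [← Finset.sum_add_distrib]
        have e2 : (#E : ℝ) = ∑ m ∈ E, (1 : ℝ) := by simp
        rw [e2, ← Finset.sum_add_distrib]
        refine Finset.sum_le_sum fun m _ => ?_
        have e3 := Yv_abs d p v m
        have e4 : (Yv d p v m) ^ 2 ≤ 1 := by
          rw [← sq_abs]
          exact pow_le_one₀ (abs_nonneg _) e3
        nlinarith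
      refine (Finset.sum_le_sum fun v _ => e1 v).trans ?_
      rw [Finset.sum_add_distrib, Finset.sum_add_distrib]
      have e5 : ∑ v : (ZMod p)ˣ, ∑ m ∈ E, 2 * (S m * Yv d p v m) = 0 := by
        rw [Finset.sum_comm]
        refine Finset.sum_eq_zero fun m _ => ?_
        rw [← Finset.mul_sum, ← Finset.mul_sum, Yv_sum, mul_zero, mul_zero]
      rw [e5, add_zero, ← Finset.sum_add_distrib]
      exact Finset.sum_le_sum fun v _ => by linarith
    obtain ⟨v, -, hv⟩ := Finset.exists_le_of_sum_le (Finset.univ_nonempty) h1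
    refine ⟨Function.update u p v, ?_⟩
    rw [card_insert_of_notMem hpT]
    push_cast
    have e6 : ∀ m ∈ E, (∑ q ∈ insert p T, Yv d q (Function.update u p v q) m) ^ 2 =
        (S m + Yv d p v m) ^ 2 := by
      intro m _
      rw [Finset.sum_insert hpT, Function.update_self, add_comm]
      congr 2
      refine Finset.sum_congr rfl fun q hq => ?_
      rw [Function.update_of_ne]
      rintro rfl
      exact hpT hq
    rw [Finset.sum_congr rfl e6]
    linarith

/-- the complete sum of a character -/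
lemma good_full (p : ℕ) [Fact p.Prime] : Good (Icc 1 (p - 1)) 0 p := by
  classical
  intro χ hχ
  have h1 : ∑ q ∈ Icc 1 (p - 1), χ ((q : ℕ) : ZMod p) = ∑ a : ZMod p, χ a := by
    have h2 : ∑ a : ZMod p, χ a = ∑ a ∈ univ.filter (fun a : ZMod p => a ≠ 0), χ a := by
      rw [Finset.sum_filter]
      refine Finset.sum_congr rfl fun a _ => ?_
      split_ifs with h
      · rfl
      · push Not at h
        rw [h]
        exact χ.map_nonunit (by simp)
    rw [h2]
    refine Finset.sum_bij' (fun q _ => (q : ZMod p)) (fun a _ => a.val) ?_ ?_ ?_ ?_ ?_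
    · intro q hq
      rw [mem_Icc] at hq
      rw [mem_filter]
      refine ⟨mem_univ _, ?_⟩
      rw [Ne, ZMod.natCast_eq_zero_iff]
      intro h
      have := Nat.le_of_dvd (by omega) h
      have := (Fact.out : p.Prime).two_le
      omega
    · intro a ha
      rw [mem_filter] at ha
      rw [mem_Icc]
      have h3 := ZMod.val_lt a
      have h4 : a.val ≠ 0 := by
        intro h
        exact ha.2 ((ZMod.val_eq_zero a).1 h)
      omega
    · intro q hq
      rw [mem_Icc] at hq
      have := (Fact.out : p.Prime).two_le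
      exact ZMod.val_cast_of_lt (by omega)
    · intro a _
      exact ZMod.natCast_zmod_val a
    · intro q _
      rfl
  rw [h1]
  have h5 : ∑ a : ZMod p, χ a = 0 := MulChar.sum_eq_zero_of_ne_one hχ
  rw [h5]
  simp

/-- the mean value and the local density -/
lemma mu_G (d : Dat) (p : ℕ) (hp : p.Prime) (h0 : d.p0 ≤ p) :
    |mu d p - d.G p| ≤ 1 / ((p : ℝ) - 1) := by
  classical
  have : Fact p.Prime := ⟨hp⟩
  have hp2 := hp.two_le
  have hE : ∀ q ∈ Icc 1 (p - 1), (q : ZMod p) ≠ 0 := by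
    intro q hq
    rw [mem_Icc] at hq
    rw [Ne, ZMod.natCast_eq_zero_iff]
    intro h
    have := Nat.le_of_dvd (by omega) h
    omega
  have h1 := d.loc p hp h0 (Icc 1 (p - 1)) 0 (p + 2) (by omega) hE le_rfl (good_full p)
  have h2 : hL (p + 2) (p - 1) = 0 := by
    unfold hL
    apply Finset.sum_eq_zero
    intro l hl
    rw [mem_filter] at hl
    have h3 := Nat.le_of_mem_primeFactors hl.1
    omega
  rw [h2] at h1
  have h3 : (#(Icc 1 (p - 1)) : ℝ) = (p : ℝ) - 1 := by
    rw [Nat.card_Icc]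
    have : p - 1 + 1 - 1 = p - 1 := by omega
    rw [this, Nat.cast_sub hp.one_le]
    simp
  have h4 : (Nat.card (ZMod p)ˣ : ℝ) = (p : ℝ) - 1 := by
    rw [Nat.card_eq_fintype_card, ZMod.card_units_eq_totient, Nat.totient_prime hp,
      Nat.cast_sub hp.one_le]
    simp
  have hp1 : (0 : ℝ) < (p : ℝ) - 1 := by
    have : (2 : ℝ) ≤ p := by exact_mod_cast hp2
    linarith
  have h5 : ((open Classical in #((Icc 1 (p - 1)).filter (fun q : ℕ => d.Q p ((q : ℕ) : ZMod p))) : ℕ) : ℝ) =
      (Nat.card {v : (ZMod p)ˣ // d.Q p (v : ZMod p)} : ℝ) := by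
    rw [Nat.card_eq_fintype_card, Fintype.card_subtype]
    norm_cast
    refine Finset.card_bij' (fun q _ => if h : (q : ZMod p) ≠ 0 then Units.mk0 (q : ZMod p) h else 1)
      (fun v _ => (v : ZMod p).val) ?_ ?_ ?_ ?_
    · intro q hq
      rw [mem_filter] at hq
      rw [mem_filter, dif_pos (hE q hq.1)]
      exact ⟨mem_univ _, hq.2⟩
    · intro v hv
      rw [mem_filter] at hv
      rw [mem_filter, mem_Icc]
      have h3 := ZMod.val_lt (v : ZMod p)
      have h4 : (v : ZMod p).val ≠ 0 := by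
        intro h
        exact v.ne_zero ((ZMod.val_eq_zero _).1 h)
      refine ⟨by omega, ?_⟩
      rw [ZMod.natCast_zmod_val]
      exact hv.2
    · intro q hq
      rw [mem_filter] at hq
      simp only [dif_pos (hE q hq.1), Units.val_mk0]
      rw [mem_Icc] at hq
      exact ZMod.val_cast_of_lt (by omega)
    · intro v hv
      have h6 : (((v : ZMod p).val : ℕ) : ZMod p) ≠ 0 := by
        rw [ZMod.natCast_zmod_val]
        exact v.ne_zero
      rw [dif_pos h6]
      ext
      simp [ZMod.natCast_zmod_val]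
  have h1' := h1
  rw [h5, h3] at h1'
  unfold mu
  rw [h4]
  have h6 : (Nat.card {v : (ZMod p)ˣ // d.Q p (v : ZMod p)} : ℝ) / ((p : ℝ) - 1) - d.G p =
      ((Nat.card {v : (ZMod p)ˣ // d.Q p (v : ZMod p)} : ℝ) - ((p : ℝ) - 1) * d.G p) / ((p : ℝ) - 1) := by
    field_simp
  rw [h6, abs_div, abs_of_pos hp1]
  gcongr
  refine h1'.trans (le_of_eq ?_)
  ring

/-- a counting problem twisted by units -/
noncomputable def twist (d : Dat) (u : ∀ p : ℕ, (ZMod p)ˣ) : Dat where
  Q := fun p a => d.Q p ((u p : ZMod p) * a)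
  G := d.G
  A := d.A
  p0 := d.p0
  G0 := d.G0
  G1 := d.G1
  loc := by
    classical
    intro p hp hp0 E M L hL2 hE hM hG
    have : Fact p.Prime := ⟨hp⟩
    set φ : ℕ → ℕ := fun q => ((u p : ZMod p) * (q : ZMod p)).val + p * q with hφ
    have hφc : ∀ q : ℕ, ((φ q : ℕ) : ZMod p) = (u p : ZMod p) * (q : ZMod p) := by
      intro q
      simp [hφ]
    have hφi : Function.Injective φ := by
      intro a b hab
      have h1 : φ a / p = a := by
        simp only [hφ]
        rw [Nat.add_mul_div_left _ _ hp.pos, Nat.div_eq_of_lt (ZMod.val_lt _), zero_add]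
      have h2 : φ b / p = b := by
        simp only [hφ]
        rw [Nat.add_mul_div_left _ _ hp.pos, Nat.div_eq_of_lt (ZMod.val_lt _), zero_add]
      rw [← h1, ← h2, hab]
    have h := d.loc p hp hp0 (E.image φ) M L hL2 (by
      intro q hq
      rw [mem_image] at hq
      obtain ⟨a, ha, rfl⟩ := hq
      rw [hφc]
      exact mul_ne_zero (u p).ne_zero (hE a ha)) hM (by
      intro χ hχ
      rw [Finset.sum_image fun a _ b _ hab => hφi hab]
      have e1 : ∑ q ∈ E, χ ((φ q : ℕ) : ZMod p) = χ (u p : ZMod p) * ∑ q ∈ E, χ (q : ZMod p) := by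
        rw [Finset.mul_sum]
        refine Finset.sum_congr rfl fun q _ => ?_
        rw [hφc, map_mul]
      rw [e1, norm_mul]
      have e2 : ‖χ (u p : ZMod p)‖ ≤ 1 := DirichletCharacter.norm_le_one χ _
      calc ‖χ (u p : ZMod p)‖ * ‖∑ q ∈ E, χ (q : ZMod p)‖ ≤ 1 * M :=
            mul_le_mul e2 (hG χ hχ) (norm_nonneg _) zero_le_one
        _ = M := one_mul M)
    have e3 : #(E.image φ) = #E := card_image_of_injective _ hφi
    have e4 : #((E.image φ).filter (fun q : ℕ => d.Q p ((q : ℕ) : ZMod p))) =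
        #(E.filter (fun q : ℕ => d.Q p ((u p : ZMod p) * ((q : ℕ) : ZMod p)))) := by
      rw [Finset.filter_image, card_image_of_injective _ hφi]
      congr 1
      refine Finset.filter_congr fun q _ => ?_
      rw [hφc]
    rw [e3] at h
    refine le_trans (le_of_eq ?_) h
    congr 2
    exact_mod_cast e4.symm
  lim := d.lim

end Pool.Agent.K6.H61.SI
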