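import Pool.Agent.K6.H61.SI.MainR

set_option autoImplicit false

/-! # The limit of the mean values -/

namespace Pool.Agent.K6.H61.SI

open Finset Filter Topology
open Pool.Agent.H730R2.AA (rho PR wsum_tendsto recip)
open Pool.Agent.H730R2.AB (gL_rho)
open Pool.Agent.H386R2.Artin (PP hL gL gL_nonneg gL_le_one sumH card_PP)

/-- the Jacobi symbol as a real number -/
noncomputable def Jr (a : ℤ) (q : ℕ) : ℝ := ((jacobiSym a q : ℤ) : ℝ)

lemma Jr_abs (a : ℤ) (q : ℕ) : |Jr a q| ≤ 1 := by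
  unfold Jr
  rcases jacobiSym.trichotomy a q with h | h | h <;> rw [h] <;> simp

/-- the local factors at the primes dividing the modulus -/
noncomputable def gf (r f a : ℕ) : ℝ :=
  ∏ q ∈ f.primeFactors.filter (fun q => a ≡ 1 [MOD q]), (1 - 1 / (q : ℝ)) ^ r

/-- the mean value -/
noncomputable def dT (r : ℕ) (T : Finset ℕ) (f a : ℕ) : ℝ :=
  (1 / (f.totient : ℝ)) * gf r f a * EP r f *
    ∏ q ∈ T, (if q ∣ f then Jr a q else -(cc r q) / (1 - cc r q))

/-- the sum -/
noncomputable def AT (D : ℤ) (r : ℕ) (T : Finset ℕ) (f a x : ℕ) : ℝ :=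
  ∑ p ∈ (PR D x).filter (fun p => p ≡ a [MOD f]), rho p ^ r * ∏ q ∈ T, Jr p q

lemma dvd_iff_one {p q : ℕ} (hp : 1 ≤ p) : q ∣ p - 1 ↔ (p : ZMod q) = 1 := by
  have h1 : ((1 : ℕ) : ZMod q) = 1 := Nat.cast_one
  rw [← h1, ZMod.natCast_eq_natCast_iff]
  constructor
  · intro h
    exact ((Nat.modEq_iff_dvd' hp).2 h).symm
  · intro h
    exact (Nat.modEq_iff_dvd' hp).1 h.symm

lemma gL_pow (r L n : ℕ) (hn : n ≠ 0) :
    gL L n ^ r = ∏ q ∈ PP L, (if q ∣ n then (1 - 1 / (q : ℝ)) ^ r else 1) := by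
  classical
  unfold gL
  rw [← Finset.prod_pow, ← Finset.prod_filter]
  refine Finset.prod_congr ?_ fun _ _ => rfl
  ext q
  unfold PP
  simp only [mem_filter, mem_range, Nat.mem_primeFactors]
  constructor
  · rintro ⟨⟨h1, h2, _⟩, h3⟩
    exact ⟨⟨by omega, h1⟩, h2⟩
  · rintro ⟨⟨h1, h2⟩, h3⟩
    exact ⟨⟨h2, h3, hn⟩, by omega⟩

lemma trunc_eq (r L f a : ℕ) (T : Finset ℕ) (hf : 0 < f) (hfL : f ≤ L)
    (hT : ∀ q ∈ T, q.Prime ∧ q ≤ L) (p : ℕ) (hp : p.Prime) :
    (if p ≡ a [MOD f] then gL L (p - 1) ^ r * ∏ q ∈ T, Jr p q else 0) =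
      (if (p : ZMod f) = (a : ZMod f) then
        gf r f a * ∏ q ∈ T.filter (fun q => q ∣ f), Jr a q else 0) *
      ∏ q ∈ (PP L).filter (fun q => ¬ q ∣ f), hq r T q (p : ZMod q) := by
  classical
  by_cases hpa : p ≡ a [MOD f]
  · rw [if_pos hpa, if_pos ((ZMod.natCast_eq_natCast_iff _ _ _).2 hpa)]
    have hp1 : p - 1 ≠ 0 := by
      have := hp.two_le
      omega
    rw [gL_pow r L _ hp1]
    -- the first product
    have e1 : ∏ q ∈ PP L, (if q ∣ p - 1 then (1 - 1 / (q : ℝ)) ^ r else 1) =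
        gf r f a * ∏ q ∈ (PP L).filter (fun q => ¬ q ∣ f),
          (if q ∣ p - 1 then (1 - 1 / (q : ℝ)) ^ r else 1) := by
      rw [← Finset.prod_filter_mul_prod_filter_not (PP L) (fun q => q ∣ f)]
      congr 1
      unfold gf
      rw [Finset.prod_filter (s := f.primeFactors)]
      refine Finset.prod_congr ?_ fun q hq' => ?_
      · ext q
        unfold PP
        simp only [mem_filter, mem_range, Nat.mem_primeFactors]
        constructor
        · rintro ⟨⟨h1, h2⟩, h3⟩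
          exact ⟨h2, h3, hf.ne'⟩
        · rintro ⟨h1, h2, h3⟩
          have := Nat.le_of_dvd hf h2
          exact ⟨⟨by omega, h1⟩, h2⟩
      · have hqf : q ∣ f := Nat.dvd_of_mem_primeFactors hq'
        have h2 : p ≡ a [MOD q] := hpa.of_dvd hqf
        have h3 : q ∣ p - 1 ↔ a ≡ 1 [MOD q] := by
          rw [dvd_iff_one hp.one_le]
          have h1 : ((1 : ℕ) : ZMod q) = 1 := Nat.cast_one
          rw [← h1, ZMod.natCast_eq_natCast_iff]
          exact ⟨fun h => h2.symm.trans h, fun h => h2.trans h⟩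
        by_cases h4 : q ∣ p - 1
        · rw [if_pos h4, if_pos (h3.1 h4)]
        · rw [if_neg h4, if_neg (fun h => h4 (h3.2 h))]
    have e2 : ∏ q ∈ T, Jr p q = (∏ q ∈ T.filter (fun q => q ∣ f), Jr a q) *
        ∏ q ∈ (PP L).filter (fun q => ¬ q ∣ f), (if q ∈ T then Jr p q else 1) := by
      rw [← Finset.prod_filter_mul_prod_filter_not T (fun q => q ∣ f)]
      congr 1
      · refine Finset.prod_congr rfl fun q hq' => ?_
        rw [mem_filter] at hq'
        have h2 : p ≡ a [MOD q] := hpa.of_dvd hq'.2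
        unfold Jr
        rw [jacobiSym.mod_left, jacobiSym.mod_left (a : ℤ)]
        have h3 : ((p : ℤ) % (q : ℤ)) = ((a : ℤ) % (q : ℤ)) := by exact_mod_cast h2
        rw [h3]
      · rw [← Finset.prod_filter]
        refine Finset.prod_congr ?_ fun _ _ => rfl
        ext q
        unfold PP
        simp only [mem_filter, mem_range]
        constructor
        · rintro ⟨h1, h2⟩
          have h3 := hT q h1
          exact ⟨⟨⟨by omega, h3.1⟩, h2⟩, h1⟩
        · rintro ⟨⟨_, h2⟩, h3⟩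
          exact ⟨h3, h2⟩
    rw [e1, e2]
    have e3 : ∏ q ∈ (PP L).filter (fun q => ¬ q ∣ f), hq r T q (p : ZMod q) =
        (∏ q ∈ (PP L).filter (fun q => ¬ q ∣ f), (if q ∈ T then Jr p q else 1)) *
        ∏ q ∈ (PP L).filter (fun q => ¬ q ∣ f),
          (if q ∣ p - 1 then (1 - 1 / (q : ℝ)) ^ r else 1) := by
      rw [← Finset.prod_mul_distrib]
      refine Finset.prod_congr rfl fun q hq' => ?_
      have hqp : q.Prime := (mem_filter.1 (mem_filter.1 hq').1).2
      unfold hq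
      congr 1
      · have h5 : jacobiSym (((p : ZMod q).val : ℕ) : ℤ) q = jacobiSym (p : ℤ) q := by
          rw [ZMod.val_natCast, jacobiSym.mod_left (p : ℤ)]
          push_cast
          rfl
        unfold Jr
        rw [h5]
      · by_cases h4 : q ∣ p - 1
        · rw [if_pos h4, if_pos ((dvd_iff_one hp.one_le).1 h4)]
        · rw [if_neg h4, if_neg (fun h => h4 ((dvd_iff_one hp.one_le).2 h))]
    rw [e3]
    ring
  · rw [if_neg hpa, if_neg (fun h => hpa ((ZMod.natCast_eq_natCast_iff _ _ _).1 h)), zero_mul]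

lemma trunc_lim (D : ℤ) (hD0 : D ≠ 0) (r L f a : ℕ) (T : Finset ℕ) (hf : 0 < f) (ha : a.Coprime f)
    (hfL : f ≤ L) (hT : ∀ q ∈ T, q.Prime ∧ q ≠ 2 ∧ q ≤ L) :
    Tendsto (fun x : ℕ => (∑ p ∈ (PR D x).filter (fun p => p ≡ a [MOD f]),
      gL L (p - 1) ^ r * ∏ q ∈ T, Jr p q) / (Nat.primeCounting x : ℝ)) atTop
      (𝓝 ((1 / (f.totient : ℝ)) * gf r f a * (∏ q ∈ (PP L).filter (fun q => ¬ q ∣ f), (1 - cc r q)) *
        ∏ q ∈ T, (if q ∣ f then Jr a q else -(cc r q) / (1 - cc r q)))) := by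
  classical
  have : NeZero f := ⟨hf.ne'⟩
  have hPP : ∀ q ∈ (PP L).filter (fun q => ¬ q ∣ f), q.Prime := by
    intro q hq'
    exact (mem_filter.1 (mem_filter.1 hq').1).2
  have h := peel D hD0 (fun q => hq r T q) (aq r T) ((PP L).filter (fun q => ¬ q ∣ f)) hPP
    (fun q hq' _ => hq_avg r T q (hPP q hq') (fun h => (hT q h).2.1)) f
    (fun b => if b = (a : ZMod f) then
        gf r f a * ∏ q ∈ T.filter (fun q => q ∣ f), Jr a q else 0)
    (fun q hq' => ((hPP q hq').coprime_iff_not_dvd.2 (mem_filter.1 hq').2).symm)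
  have e1 : ∑ u : (ZMod f)ˣ, (if (u : ZMod f) = (a : ZMod f) then
        gf r f a * ∏ q ∈ T.filter (fun q => q ∣ f), Jr a q else 0) =
      gf r f a * ∏ q ∈ T.filter (fun q => q ∣ f), Jr a q := by
    have h2 : ∀ u : (ZMod f)ˣ, (u : ZMod f) = (a : ZMod f) ↔ u = ZMod.unitOfCoprime a ha := by
      intro u
      constructor
      · intro h
        apply Units.ext
        rw [h, ZMod.coe_unitOfCoprime]
      · intro h
        rw [h, ZMod.coe_unitOfCoprime]
    simp only [h2]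
    simp
  rw [e1] at h
  have e2 : gf r f a * (∏ q ∈ T.filter (fun q => q ∣ f), Jr a q) / (f.totient : ℝ) *
      ∏ q ∈ (PP L).filter (fun q => ¬ q ∣ f), aq r T q =
      (1 / (f.totient : ℝ)) * gf r f a * (∏ q ∈ (PP L).filter (fun q => ¬ q ∣ f), (1 - cc r q)) *
        ∏ q ∈ T, (if q ∣ f then Jr a q else -(cc r q) / (1 - cc r q)) := by
    have e3 : ∏ q ∈ T, (if q ∣ f then Jr a q else -(cc r q) / (1 - cc r q)) =
        (∏ q ∈ T.filter (fun q => q ∣ f), Jr a q) *
        ∏ q ∈ T.filter (fun q => ¬ q ∣ f), (-(cc r q) / (1 - cc r q)) := by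
      rw [Finset.prod_ite]
    have e4 : ∏ q ∈ (PP L).filter (fun q => ¬ q ∣ f), aq r T q =
        (∏ q ∈ (PP L).filter (fun q => ¬ q ∣ f), (1 - cc r q)) *
        ∏ q ∈ T.filter (fun q => ¬ q ∣ f), (-(cc r q) / (1 - cc r q)) := by
      have e5 : T.filter (fun q => ¬ q ∣ f) = ((PP L).filter (fun q => ¬ q ∣ f)).filter
          (fun q => q ∈ T) := by
        ext q
        unfold PP
        simp only [mem_filter, mem_range]
        constructor
        · rintro ⟨h1, h2⟩
          have h3 := hT q h1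
          exact ⟨⟨⟨by omega, h3.1⟩, h2⟩, h1⟩
        · rintro ⟨⟨_, h2⟩, h3⟩
          exact ⟨h3, h2⟩
      rw [e5, Finset.prod_filter (fun q => q ∈ T), ← Finset.prod_mul_distrib]
      refine Finset.prod_congr rfl fun q hq' => ?_
      have h6 := cc_ne r q (hPP q hq')
      unfold aq
      split_ifs
      · field_simp
      · ring
    rw [e3, e4]
    ring
  rw [e2] at h
  refine h.congr fun x => ?_
  congr 1
  rw [Finset.sum_filter]
  refine Finset.sum_congr rfl fun p hp => ?_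
  have hpp : p.Prime := by
    unfold PR at hp
    exact (mem_filter.1 hp).2.1
  exact (trunc_eq r L f a T hf hfL (fun q hq' => ⟨(hT q hq').1, (hT q hq').2.2⟩) p hpp).symm

lemma pow_sub_le (r : ℕ) (a b : ℝ) (hb0 : 0 ≤ b) (hba : b ≤ a) (ha : a ≤ 1) :
    a ^ r - b ^ r ≤ r * (a - b) := by
  induction r with
  | zero => simp
  | succ r ih =>
    have h1 : a ^ (r + 1) - b ^ (r + 1) = a * (a ^ r - b ^ r) + b ^ r * (a - b) := by ring
    have h2 : 0 ≤ a ^ r - b ^ r := by
      have := pow_le_pow_left₀ hb0 hba r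
      linarith
    have h3 : b ^ r ≤ 1 := pow_le_one₀ hb0 (hba.trans ha)
    have h4 : a * (a ^ r - b ^ r) ≤ 1 * (a ^ r - b ^ r) := mul_le_mul_of_nonneg_right ha h2
    have h5 : b ^ r * (a - b) ≤ 1 * (a - b) := mul_le_mul_of_nonneg_right h3 (by linarith)
    rw [h1]
    push_cast
    linarith

/-- **the mean value** -/
theorem lim_T (D : ℤ) (hD0 : D ≠ 0) (r f a : ℕ) (T : Finset ℕ) (hf : 0 < f) (ha : a.Coprime f)
    (hT : ∀ q ∈ T, q.Prime ∧ q ≠ 2) :
    Tendsto (fun x : ℕ => AT D r T f a x / (Nat.primeCounting x : ℝ)) atTop (𝓝 (dT r T f a)) := by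
  classical
  obtain ⟨C, hC, h5⟩ := sumH
  set bT : ℝ := ∏ q ∈ T, (if q ∣ f then Jr a q else -(cc r q) / (1 - cc r q)) with hbT
  set dL : ℕ → ℝ := fun L => (1 / (f.totient : ℝ)) * gf r f a *
    (∏ q ∈ (PP L).filter (fun q => ¬ q ∣ f), (1 - cc r q)) * bT with hdL
  have hlimL : Tendsto dL atTop (𝓝 (dT r T f a)) := by
    have := ((EP_lim r f).const_mul ((1 / (f.totient : ℝ)) * gf r f a)).mul_const bT
    exact this
  rw [Metric.tendsto_atTop]
  intro ε hε
  have hL1 : ∀ᶠ L : ℕ in atTop, |dL L - dT r T f a| < ε / 4 := by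
    have := (Metric.tendsto_nhds.1 hlimL) (ε / 4) (by positivity)
    simpa [Real.dist_eq] using this
  have hL2 : ∀ᶠ L : ℕ in atTop, r * C / (L : ℝ) < ε / 4 := by
    have : Tendsto (fun L : ℕ => r * C / (L : ℝ)) atTop (𝓝 0) :=
      tendsto_const_nhds.div_atTop tendsto_natCast_atTop_atTop
    exact this.eventually (gt_mem_nhds (by positivity))
  obtain ⟨L, ⟨⟨g1, g2⟩, g3⟩, g4⟩ := (((hL1.and hL2).and (eventually_ge_atTop (max 1 f))).and
    (eventually_ge_atTop (T.sup id))).exists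
  obtain ⟨x₅, hx₅⟩ := h5 L ((le_max_left _ _).trans g3)
  have hTL : ∀ q ∈ T, q.Prime ∧ q ≠ 2 ∧ q ≤ L := fun q hq' =>
    ⟨(hT q hq').1, (hT q hq').2, (Finset.le_sup (f := id) hq').trans g4⟩
  have hG : ∀ᶠ x : ℕ in atTop, |(∑ p ∈ (PR D x).filter (fun p => p ≡ a [MOD f]),
      gL L (p - 1) ^ r * ∏ q ∈ T, Jr p q) / (Nat.primeCounting x : ℝ) - dL L| < ε / 4 := by
    have := (Metric.tendsto_nhds.1 (trunc_lim D hD0 r L f a T hf ha ((le_max_right _ _).trans g3) hTL))
      (ε / 4) (by positivity)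
    filter_upwards [this] with x hx
    rw [Real.dist_eq] at hx
    exact hx
  have hπ : ∀ᶠ x : ℕ in atTop, (1 : ℝ) ≤ (Nat.primeCounting x : ℝ) :=
    (tendsto_natCast_atTop_atTop.comp Nat.tendsto_primeCounting).eventually_ge_atTop _
  obtain ⟨x₀, hx₀⟩ := eventually_atTop.1 ((hG.and hπ).and (eventually_ge_atTop x₅))
  refine ⟨x₀, fun x hx => ?_⟩
  obtain ⟨⟨k1, k2⟩, k3⟩ := hx₀ x hx
  set P : ℝ := (Nat.primeCounting x : ℝ) with hP
  have hP0 : 0 < P := lt_of_lt_of_le one_pos k2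
  have hh := hx₅ x k3
  set AL : ℝ := ∑ p ∈ (PR D x).filter (fun p => p ≡ a [MOD f]),
      gL L (p - 1) ^ r * ∏ q ∈ T, Jr p q with hAL
  have hPRPP : (PR D x).filter (fun p => p ≡ a [MOD f]) ⊆ PP x := by
    intro p hp
    unfold PR at hp
    unfold PP
    rw [mem_filter, mem_filter] at hp
    rw [mem_filter]
    exact ⟨hp.1.1, hp.1.2.1⟩
  have h13 : |AL - AT D r T f a x| ≤ r * C / L * P := by
    rw [hAL]
    unfold AT
    rw [← Finset.sum_sub_distrib]
    refine (Finset.abs_sum_le_sum_abs _ _).trans ?_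
    calc ∑ p ∈ (PR D x).filter (fun p => p ≡ a [MOD f]), |gL L (p - 1) ^ r * ∏ q ∈ T, Jr p q -
          rho p ^ r * ∏ q ∈ T, Jr p q| ≤
          ∑ p ∈ (PR D x).filter (fun p => p ≡ a [MOD f]), r * hL L (p - 1) := by
          apply Finset.sum_le_sum
          intro p hp
          have hpp : p.Prime := (mem_filter.1 (hPRPP hp)).2
          have : Fact p.Prime := ⟨hpp⟩
          obtain ⟨c1, c2⟩ := gL_rho (p := p) L
          have c3 : 0 ≤ rho p := by unfold rho; positivity
          have c4 := gL_le_one L (p - 1)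
          have c5 := pow_sub_le r (gL L (p - 1)) (rho p) c3 (by linarith) c4
          have c6 : 0 ≤ gL L (p - 1) ^ r - rho p ^ r := by
            have := pow_le_pow_left₀ c3 (show rho p ≤ gL L (p - 1) by linarith) r
            linarith
          have c7 : |∏ q ∈ T, Jr p q| ≤ 1 := by
            rw [Finset.abs_prod]
            exact Finset.prod_le_one (fun q _ => abs_nonneg _) fun q _ => Jr_abs _ _
          rw [← sub_mul, abs_mul, abs_of_nonneg c6]
          calc (gL L (p - 1) ^ r - rho p ^ r) * |∏ q ∈ T, Jr p q| ≤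
                (gL L (p - 1) ^ r - rho p ^ r) * 1 := mul_le_mul_of_nonneg_left c7 c6
            _ ≤ r * (gL L (p - 1) - rho p) := by linarith
            _ ≤ r * hL L (p - 1) := mul_le_mul_of_nonneg_left c2 (Nat.cast_nonneg _)
      _ ≤ ∑ p ∈ PP x, r * hL L (p - 1) := by
          refine Finset.sum_le_sum_of_subset_of_nonneg hPRPP fun p _ _ => ?_
          exact mul_nonneg (Nat.cast_nonneg _) (Finset.sum_nonneg fun l _ => by positivity)
      _ = r * ∑ p ∈ PP x, hL L (p - 1) := by rw [Finset.mul_sum]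
      _ ≤ r * (C / L * P) := mul_le_mul_of_nonneg_left hh (Nat.cast_nonneg _)
      _ = r * C / L * P := by ring
  have h14 : |AL - dL L * P| ≤ ε / 4 * P := by
    have e1 : AL - dL L * P = (AL / P - dL L) * P := by field_simp
    rw [e1, abs_mul, abs_of_pos hP0]
    exact mul_le_mul_of_nonneg_right k1.le hP0.le
  have h15 : |dL L * P - dT r T f a * P| ≤ ε / 4 * P := by
    rw [← sub_mul, abs_mul, abs_of_pos hP0]
    exact mul_le_mul_of_nonneg_right g1.le hP0.le
  have h16 : |AT D r T f a x - dT r T f a * P| < ε * P := by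
    have t1 : r * C / L * P ≤ ε / 4 * P := mul_le_mul_of_nonneg_right g2.le hP0.le
    rw [abs_le] at h13 h14 h15
    rw [abs_lt]
    have : 0 < ε * P := by positivity
    constructor
    · linarith [h13.1, h13.2, h14.1, h14.2, h15.1, h15.2]
    · linarith [h13.1, h13.2, h14.1, h14.2, h15.1, h15.2]
  rw [Real.dist_eq]
  have h17 : AT D r T f a x / P - dT r T f a = (AT D r T f a x - dT r T f a * P) / P := by
    field_simp
  rw [h17, abs_div, abs_of_pos hP0, div_lt_iff₀ hP0]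
  exact h16

end Pool.Agent.K6.H61.SI
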