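import Mathlib
import Pool.Agent.H730R2.AA.WdLim
import Pool.Agent.H730R2.AB.LocalSq
import Pool.Agent.H386R2.Artin.Average
import Pool.Agent.H771R4.AQ.MainLim

set_option autoImplicit false

/-! # The mean value of `(φ(p-1)/(p-1))^r` times quadratic characters over the primes of a progression -/

namespace Pool.Agent.K6.H61.SI

open Finset Filter Topology
open Pool.Agent.H730R2.AA (rho PR wsum_tendsto recip)
open Pool.Agent.H730R2.AB (gL_rho)
open Pool.Agent.H386R2.Artin (PP hL gL gL_nonneg gL_le_one sumH)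

lemma crt_avg (M q : ℕ) [NeZero M] [NeZero q] [NeZero (M * q)] (h : M.Coprime q) (F : ZMod M → ℝ)
    (H : ZMod q → ℝ) :
    ∑ u : (ZMod (M * q))ˣ, F (ZMod.chineseRemainder h (u : ZMod (M * q))).1 *
      H (ZMod.chineseRemainder h (u : ZMod (M * q))).2 =
      (∑ u : (ZMod M)ˣ, F u) * ∑ u : (ZMod q)ˣ, H u := by
  classical
  rw [Finset.sum_mul_sum, ← Fintype.sum_prod_type']
  refine Fintype.sum_equiv
    (((Units.mapEquiv (ZMod.chineseRemainder h).toMulEquiv).trans MulEquiv.prodUnits).toEquiv) _ _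
    fun u => ?_
  rfl

/-- **peeling of primes** -/
theorem peel (D : ℤ) (hD0 : D ≠ 0) (hh : (q : ℕ) → ZMod q → ℝ) (α : ℕ → ℝ) (Z : Finset ℕ) :
    (∀ q ∈ Z, q.Prime) →
    (∀ q ∈ Z, ∀ [NeZero q], ∑ u : (ZMod q)ˣ, hh q u = α q * (q.totient : ℝ)) →
    ∀ (M : ℕ) [NeZero M] (F : ZMod M → ℝ), (∀ q ∈ Z, Nat.Coprime M q) →
    Tendsto (fun x : ℕ => (∑ p ∈ PR D x, F (p : ZMod M) * ∏ q ∈ Z, hh q (p : ZMod q)) /
      (Nat.primeCounting x : ℝ)) atTop
      (𝓝 ((∑ u : (ZMod M)ˣ, F u) / (M.totient : ℝ) * ∏ q ∈ Z, α q)) := by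
  classical
  induction Z using Finset.induction_on with
  | empty =>
    intro _ _ M _ F _
    simp only [prod_empty, mul_one]
    exact wsum_tendsto D hD0 M F
  | insert q Z hqZ ih =>
    intro hp hα M _ F hM
    have hqp : q.Prime := hp q (mem_insert_self _ _)
    have : NeZero q := ⟨hqp.ne_zero⟩
    have hMq : M.Coprime q := hM q (mem_insert_self _ _)
    have : NeZero (M * q) := ⟨mul_ne_zero (NeZero.ne M) hqp.ne_zero⟩
    have h1 := ih (fun l hl => hp l (mem_insert_of_mem hl))
      (fun l hl => hα l (mem_insert_of_mem hl)) (M * q)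
      (fun a => F (ZMod.chineseRemainder hMq a).1 * hh q (ZMod.chineseRemainder hMq a).2)
      (fun l hl => by
        have hlp := hp l (mem_insert_of_mem hl)
        refine Nat.Coprime.mul_left (hM l (mem_insert_of_mem hl)) ?_
        rw [Nat.coprime_primes hqp hlp]
        rintro rfl
        exact hqZ hl)
    rw [crt_avg M q hMq F (hh q), hα q (mem_insert_self _ _), Nat.totient_mul hMq] at h1
    have ht : (q.totient : ℝ) ≠ 0 := by
      exact_mod_cast (Nat.totient_pos.2 hqp.pos).ne'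
    have htM : (M.totient : ℝ) ≠ 0 := by
      exact_mod_cast (Nat.totient_pos.2 (NeZero.pos M)).ne'
    have e1 : (∑ u : (ZMod M)ˣ, F u) * (α q * (q.totient : ℝ)) / ((M.totient * q.totient : ℕ) : ℝ) *
        ∏ l ∈ Z, α l = (∑ u : (ZMod M)ˣ, F u) / (M.totient : ℝ) * ∏ l ∈ insert q Z, α l := by
      rw [Finset.prod_insert hqZ]
      push_cast
      field_simp
    rw [e1] at h1
    refine h1.congr fun x => ?_
    congr 1
    refine Finset.sum_congr rfl fun p _ => ?_
    rw [Finset.prod_insert hqZ]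
    simp only [map_natCast, Prod.fst_natCast, Prod.snd_natCast]
    ring

/-- `(1 - (1 - 1/q)^r) / (q - 1)` -/
noncomputable def cc (r q : ℕ) : ℝ := (1 - (1 - 1 / (q : ℝ)) ^ r) / ((q : ℝ) - 1)

lemma cc_bd (r q : ℕ) (hq : q.Prime) : 0 ≤ cc r q ∧ cc r q ≤ 2 * r / (q : ℝ) ^ 2 := by
  have hq2 : (2 : ℝ) ≤ q := by exact_mod_cast hq.two_le
  have h0 : 0 ≤ 1 - 1 / (q : ℝ) := by
    have : 1 / (q : ℝ) ≤ 1 := by
      rw [div_le_one (by linarith)]
      linarith
    linarith
  have h1 : 1 - 1 / (q : ℝ) ≤ 1 := by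
    have : 0 < 1 / (q : ℝ) := by positivity
    linarith
  have h2 : (1 - 1 / (q : ℝ)) ^ r ≤ 1 := pow_le_one₀ h0 h1
  have h4 := one_add_mul_le_pow (a := -(1 / (q : ℝ))) (by linarith) r
  have h5 : (1 + -(1 / (q : ℝ))) ^ r = (1 - 1 / (q : ℝ)) ^ r := by ring
  rw [h5] at h4
  unfold cc
  refine ⟨div_nonneg (by linarith) (by linarith), ?_⟩
  have h6 : 1 - (1 - 1 / (q : ℝ)) ^ r ≤ r / q := by
    have : (r : ℝ) * -(1 / (q : ℝ)) = -(r / q) := by ring
    linarith
  calc (1 - (1 - 1 / (q : ℝ)) ^ r) / ((q : ℝ) - 1) ≤ (r / q) / ((q : ℝ) - 1) := by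
        apply div_le_div_of_nonneg_right h6
        linarith
    _ ≤ (r / q) / ((q : ℝ) / 2) := by
        apply div_le_div_of_nonneg_left (by positivity) (by positivity) (by linarith)
    _ = 2 * r / (q : ℝ) ^ 2 := by field_simp

lemma cc_ne (r q : ℕ) (hq : q.Prime) : 1 - cc r q ≠ 0 := by
  have hq2 : (2 : ℝ) ≤ q := by exact_mod_cast hq.two_le
  have h0 : 0 < 1 - 1 / (q : ℝ) := by
    have : 1 / (q : ℝ) < 1 := by
      rw [div_lt_one (by linarith)]
      linarith
    linarith
  have h3 : 0 < (1 - 1 / (q : ℝ)) ^ r := pow_pos h0 r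
  have h1 : cc r q < 1 := by
    unfold cc
    rw [div_lt_one (by linarith)]
    linarith
  linarith

lemma mult_cc (r f : ℕ) : Multipliable fun p : Nat.Primes =>
    (if (p : ℕ) ∣ f then (1 : ℝ) else 1 - cc r p) := by
  have hs : Summable fun p : Nat.Primes => (if (p : ℕ) ∣ f then (0 : ℝ) else -(cc r p)) := by
    have h1 : Summable fun n : ℕ => 2 * (r : ℝ) * (1 / (n : ℝ) ^ 2) :=
      (Real.summable_one_div_nat_pow.mpr (by norm_num)).mul_left _
    have h2 : Summable fun p : Nat.Primes => 2 * (r : ℝ) * (1 / ((p : ℕ) : ℝ) ^ 2) :=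
      h1.comp_injective (i := fun p : Nat.Primes => (p : ℕ)) Subtype.val_injective
    refine Summable.of_norm_bounded h2 ?_
    intro p
    obtain ⟨h3, h4⟩ := cc_bd r p p.2
    split_ifs
    · rw [norm_zero]
      positivity
    · rw [norm_neg, Real.norm_of_nonneg h3]
      refine h4.trans (le_of_eq (by ring))
  have h := Real.multipliable_one_add_of_summable hs
  refine h.congr fun p => ?_
  split_ifs <;> ring

/-- the Euler product -/
noncomputable def EP (r f : ℕ) : ℝ := ∏' p : Nat.Primes, (if (p : ℕ) ∣ f then (1 : ℝ) else 1 - cc r p)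

lemma EP_lim (r f : ℕ) : Tendsto (fun L : ℕ => ∏ q ∈ (PP L).filter (fun q => ¬ q ∣ f), (1 - cc r q))
    atTop (𝓝 (EP r f)) := by
  have h := (mult_cc r f).hasProd
  have hs : Tendsto (fun L : ℕ => ((PP L).subtype Nat.Prime : Finset Nat.Primes)) atTop atTop := by
    apply tendsto_atTop_finset_of_monotone
    · intro a b hab p hp
      rw [Finset.mem_subtype] at hp ⊢
      unfold PP at hp ⊢
      rw [Finset.mem_filter, Finset.mem_range] at hp ⊢
      exact ⟨by omega, hp.2⟩
    · intro p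
      refine ⟨(p : ℕ), ?_⟩
      rw [Finset.mem_subtype]
      unfold PP
      rw [Finset.mem_filter, Finset.mem_range]
      exact ⟨by omega, p.2⟩
  have h2 := h.comp hs
  unfold EP
  refine h2.congr ?_
  intro L
  simp only [Function.comp]
  have h3 := Finset.prod_subtype_eq_prod_filter (s := PP L) (p := Nat.Prime)
    (f := fun q : ℕ => (if q ∣ f then (1 : ℝ) else 1 - cc r q))
  refine h3.trans ?_
  have e1 : (PP L).filter Nat.Prime = PP L := by
    unfold PP
    rw [Finset.filter_filter]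
    simp
  rw [e1, Finset.prod_filter]
  refine Finset.prod_congr rfl fun q _ => ?_
  by_cases hq : q ∣ f
  · rw [if_pos hq, if_neg (fun h => h hq)]
  · rw [if_neg hq, if_pos hq]

/-- the local function at `q` -/
noncomputable def hq (r : ℕ) (T : Finset ℕ) (q : ℕ) (b : ZMod q) : ℝ :=
  (if q ∈ T then ((jacobiSym (b.val : ℤ) q : ℤ) : ℝ) else 1) *
    (if b = 1 then (1 - 1 / (q : ℝ)) ^ r else 1)

/-- the local mean value at `q` -/
noncomputable def aq (r : ℕ) (T : Finset ℕ) (q : ℕ) : ℝ := if q ∈ T then -(cc r q) else 1 - cc r q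

lemma hq_avg (r : ℕ) (T : Finset ℕ) (q : ℕ) (hqp : q.Prime) (hT : q ∈ T → q ≠ 2) [NeZero q] :
    ∑ u : (ZMod q)ˣ, hq r T q u = aq r T q * (q.totient : ℝ) := by
  classical
  have : Fact q.Prime := ⟨hqp⟩
  have hq2 : (2 : ℝ) ≤ q := by exact_mod_cast hqp.two_le
  have htot : (q.totient : ℝ) = (q : ℝ) - 1 := by
    rw [Nat.totient_prime hqp, Nat.cast_sub hqp.one_le]
    simp
  have hne : (q : ℝ) - 1 ≠ 0 := by linarith
  have hcK : cc r q * ((q : ℝ) - 1) = 1 - (1 - 1 / (q : ℝ)) ^ r := by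
    unfold cc
    field_simp
  set K : ℝ := 1 - (1 - 1 / (q : ℝ)) ^ r with hK
  have h1 : ∀ u : (ZMod q)ˣ, (if (u : ZMod q) = 1 then (1 - 1 / (q : ℝ)) ^ r else 1) =
      1 - (if u = 1 then K else 0) := by
    intro u
    by_cases hu : u = 1
    · rw [if_pos hu, if_pos (by rw [hu]; simp), hK]
      ring
    · rw [if_neg hu, if_neg (fun h => hu (Units.ext (by simpa using h)))]
      ring
  by_cases hqT : q ∈ T
  · have hq2' : q ≠ 2 := hT hqT
    have h2 : ∀ u : (ZMod q)ˣ, hq r T q u = ((quadraticChar (ZMod q) (u : ZMod q) : ℤ) : ℝ) -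
        (if u = 1 then K else 0) := by
      intro u
      unfold hq
      rw [if_pos hqT, h1 u]
      have h3 : jacobiSym (((u : ZMod q).val : ℕ) : ℤ) q = quadraticChar (ZMod q) (u : ZMod q) := by
        rw [← jacobiSym.legendreSym.to_jacobiSym, legendreSym]
        congr 1
        rw [Int.cast_natCast, ZMod.natCast_zmod_val]
      rw [h3]
      by_cases hu : u = 1
      · rw [if_pos hu, hu]
        simp
      · rw [if_neg hu]
        ring
    rw [Finset.sum_congr rfl fun u _ => h2 u, Finset.sum_sub_distrib]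
    have h4 : ∑ u : (ZMod q)ˣ, ((quadraticChar (ZMod q) (u : ZMod q) : ℤ) : ℝ) = 0 := by
      have h5 : ∑ a : ZMod q, quadraticChar (ZMod q) a = 0 := by
        apply quadraticChar_sum_zero
        rw [ZMod.ringChar_zmod_n]
        exact hq2'
      have h6 : ∑ u : (ZMod q)ˣ, quadraticChar (ZMod q) (u : ZMod q) = 0 := by
        have h7 : ∑ a : ZMod q, quadraticChar (ZMod q) a =
            ∑ a ∈ univ.filter (fun a : ZMod q => a ≠ 0), quadraticChar (ZMod q) a := by
          rw [Finset.sum_filter]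
          refine Finset.sum_congr rfl fun a _ => ?_
          split_ifs with h
          · rfl
          · push Not at h
            rw [h]
            exact MulChar.map_zero _
        rw [← h5, h7]
        exact Finset.sum_bij' (fun u _ => (u : ZMod q))
          (fun a ha => Units.mk0 a (mem_filter.1 ha).2)
          (fun u _ => mem_filter.2 ⟨mem_univ _, u.ne_zero⟩) (fun _ _ => mem_univ _)
          (fun u _ => Units.ext rfl) (fun a _ => rfl) (fun u _ => rfl)
      exact_mod_cast h6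
    rw [h4]
    unfold aq
    rw [if_pos hqT, htot]
    simp
    linarith
  · have h2 : ∀ u : (ZMod q)ˣ, hq r T q u = 1 - (if u = 1 then K else 0) := by
      intro u
      unfold hq
      rw [if_neg hqT, h1 u, one_mul]
    rw [Finset.sum_congr rfl fun u _ => h2 u, Finset.sum_sub_distrib]
    unfold aq
    rw [if_neg hqT, htot]
    simp only [sum_const, card_univ, ZMod.card_units_eq_totient, nsmul_eq_mul, mul_one, htot,
      sum_ite_eq', mem_univ, if_true]
    linarith

end Pool.Agent.K6.H61.SI
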