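import Pool.Agent.K6.H61.SI.AllW

set_option autoImplicit false

/-! # Several counting problems at the same time -/

namespace Pool.Agent.K6.H61.SI

open Finset Filter Topology
open Pool.Agent.H771R4.SE (Dat cntE)
open Pool.Agent.H386R2.Artin (PP Good hL card_PP pi_lower ev1 tlog)

/-- the deviation for a tuple of integers -/
noncomputable def devT {r : ℕ} (d : Fin r → Dat) (w : ℕ → ℝ) (m : Fin r → ℕ) (x : ℕ) : ℝ :=
  ∑ p ∈ PP x, w p * (∏ i, iP ((d i).Q p (m i : ZMod p)) - ∏ i, (d i).G p)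

open Classical in
/-- the tuples that are exceptional for the weights `w` and some `x` of the range -/
noncomputable def badT {r : ℕ} (d : Fin r → Dat) (w : ℕ → ℝ) (ε C B : ℝ) (N : ℕ) :
    Finset (Fin r → ℕ) :=
  (Fintype.piFinset (fun _ => Icc 1 N)).filter (fun m => ∃ x : ℕ, (Real.log N) ^ C ≤ x ∧
    (x : ℝ) ≤ Real.exp ((Real.log N) ^ B) ∧ ε * (Nat.primeCounting x : ℝ) < |devT d w m x|)

theorem tuples0 (θ C B : ℝ) (hθ : 1 / 2 < θ) (hθ1 : θ < 1) (hC : 1 / (2 * θ - 1) < C)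
    (hB : B < 1 / (2 * (1 - θ))) (r : ℕ) : ∀ (d : Fin r → Dat) (ε : ℝ), 0 < ε →
    ∃ N₀ : ℕ, ∀ N : ℕ, N₀ ≤ N → ∀ w : ℕ → ℝ, (∀ p, 0 ≤ w p ∧ w p ≤ 1) →
      (#(badT d w ε C B N) : ℝ) * (N : ℝ) ≤ r * ((N : ℝ) ^ r * (N : ℝ) ^ θ) := by
  classical
  induction r with
  | zero =>
    intro d ε hε
    refine ⟨0, fun N _ w _ => ?_⟩
    have h1 : badT d w ε C B N = ∅ := by
      unfold badT
      rw [filter_eq_empty_iff]
      rintro m _ ⟨x, -, -, h⟩
      unfold devT at h
      simp only [univ_eq_empty, prod_empty, sub_self, mul_zero, sum_const_zero, abs_zero] at h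
      have : 0 ≤ ε * (Nat.primeCounting x : ℝ) := by positivity
      linarith
    rw [h1]
    simp
  | succ r ih =>
    intro d ε hε
    set d' : Fin r → Dat := fun i => d i.succ with hd'
    obtain ⟨N₁, h1⟩ := ih d' (ε / 4) (by positivity)
    obtain ⟨N₂, h2⟩ := allW θ C B hθ hθ1 hC hB (d 0) (ε / 2) (by positivity)
    refine ⟨max (max N₁ N₂) 1, fun N hN w hw => ?_⟩
    have hN1 : N₁ ≤ N := ((le_max_left _ _).trans (le_max_left _ _)).trans hN
    have hN2 : N₂ ≤ N := ((le_max_right _ _).trans (le_max_left _ _)).trans hN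
    have hN3 : 1 ≤ N := (le_max_right _ _).trans hN
    have hN0 : (0 : ℝ) < N := by exact_mod_cast hN3
    set w1 : (Fin r → ℕ) → ℕ → ℝ := fun t p => w p * ∏ i, iP ((d' i).Q p (t i : ZMod p)) with hw1
    set w2 : ℕ → ℝ := fun p => w p * ((d 0).G p / 2) with hw2
    have hw1b : ∀ t p, 0 ≤ w1 t p ∧ w1 t p ≤ 1 := by
      intro t p
      have a1 : 0 ≤ ∏ i, iP ((d' i).Q p (t i : ZMod p)) := Finset.prod_nonneg fun i _ => iP_nonneg _
      have a2 : ∏ i, iP ((d' i).Q p (t i : ZMod p)) ≤ 1 :=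
        Finset.prod_le_one (fun i _ => iP_nonneg _) fun i _ => iP_le _
      exact ⟨mul_nonneg (hw p).1 a1, mul_le_one₀ (hw p).2 a1 a2⟩
    have hw2b : ∀ p, 0 ≤ w2 p ∧ w2 p ≤ 1 := by
      intro p
      have a1 := (d 0).G0 p
      have a2 := (d 0).G1 p
      exact ⟨mul_nonneg (hw p).1 (by linarith), mul_le_one₀ (hw p).2 (by linarith) (by linarith)⟩
    have hdec : ∀ (m : Fin (r + 1) → ℕ) (x : ℕ), devT d w m x =
        dev (d 0) (w1 (Fin.tail m)) (m 0) x + 2 * devT d' w2 (Fin.tail m) x := by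
      intro m x
      unfold devT dev
      rw [Finset.mul_sum, ← Finset.sum_add_distrib]
      refine Finset.sum_congr rfl fun p _ => ?_
      rw [Fin.prod_univ_succ, Fin.prod_univ_succ]
      simp only [hw1, hw2, hd', Fin.tail]
      ring
    set P : Finset (Fin r → ℕ) := Fintype.piFinset (fun _ => Icc 1 N) with hP
    have hPc : (#P : ℝ) = (N : ℝ) ^ r := by
      rw [hP, Fintype.card_piFinset]
      simp
    set A : Finset (Fin (r + 1) → ℕ) := (badT d w ε C B N).filter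
      (fun m => m 0 ∈ badW (d 0) (w1 (Fin.tail m)) (ε / 2) C B N) with hA
    set Bs : Finset (Fin (r + 1) → ℕ) := (badT d w ε C B N).filter
      (fun m => Fin.tail m ∈ badT d' w2 (ε / 4) C B N) with hBs
    have hpi : ∀ m ∈ badT d w ε C B N, m 0 ∈ Icc 1 N ∧ Fin.tail m ∈ P := by
      intro m hm
      unfold badT at hm
      rw [mem_filter, Fintype.mem_piFinset] at hm
      refine ⟨hm.1 0, ?_⟩
      rw [hP, Fintype.mem_piFinset]
      exact fun i => hm.1 i.succ
    have hcov : badT d w ε C B N ⊆ A ∪ Bs := by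
      intro m hm
      rw [mem_union]
      by_contra hcon
      push Not at hcon
      obtain ⟨c1, c2⟩ := hcon
      have hpm := hpi m hm
      have c1' : m 0 ∉ badW (d 0) (w1 (Fin.tail m)) (ε / 2) C B N := fun h =>
        c1 (mem_filter.2 ⟨hm, h⟩)
      have c2' : Fin.tail m ∉ badT d' w2 (ε / 4) C B N := fun h =>
        c2 (mem_filter.2 ⟨hm, h⟩)
      unfold badT at hm
      rw [mem_filter] at hm
      obtain ⟨-, x, hx1, hx2, hx3⟩ := hm
      have f1 : |dev (d 0) (w1 (Fin.tail m)) (m 0) x| ≤ ε / 2 * Nat.primeCounting x := by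
        by_contra h
        push Not at h
        apply c1'
        unfold badW
        rw [mem_filter]
        exact ⟨hpm.1, x, hx1, hx2, h⟩
      have f2 : |devT d' w2 (Fin.tail m) x| ≤ ε / 4 * Nat.primeCounting x := by
        by_contra h
        push Not at h
        apply c2'
        unfold badT
        rw [mem_filter]
        exact ⟨hpm.2, x, hx1, hx2, h⟩
      rw [hdec] at hx3
      have f3 := abs_add_le (dev (d 0) (w1 (Fin.tail m)) (m 0) x) (2 * devT d' w2 (Fin.tail m) x)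
      rw [abs_mul, abs_of_pos (show (0 : ℝ) < 2 by norm_num)] at f3
      linarith
    have hAc : (#A : ℝ) ≤ (N : ℝ) ^ r * (N : ℝ) ^ θ := by
      have g1 : #A ≤ #(P.sigma (fun t => badW (d 0) (w1 t) (ε / 2) C B N)) := by
        apply Finset.card_le_card_of_injOn (fun m => (⟨Fin.tail m, m 0⟩ : Σ _ : Fin r → ℕ, ℕ))
        · intro m hm
          have hm' := mem_filter.1 (Finset.mem_coe.1 hm)
          rw [Finset.mem_coe, Finset.mem_sigma]
          exact ⟨(hpi m hm'.1).2, hm'.2⟩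
        · intro m _ m' _ h
          have h' : Fin.tail m = Fin.tail m' ∧ m 0 = m' 0 := by
            simpa using h
          rw [← Fin.cons_self_tail m, ← Fin.cons_self_tail m', h'.1, h'.2]
      rw [Finset.card_sigma] at g1
      calc (#A : ℝ) ≤ ∑ t ∈ P, (#(badW (d 0) (w1 t) (ε / 2) C B N) : ℝ) := by exact_mod_cast g1
        _ ≤ ∑ _t ∈ P, (N : ℝ) ^ θ := Finset.sum_le_sum fun t _ => h2 N hN2 (w1 t) (hw1b t)
        _ = _ := by rw [Finset.sum_const, nsmul_eq_mul, hPc]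
    have hBc : (#Bs : ℝ) ≤ r * ((N : ℝ) ^ r * (N : ℝ) ^ θ) := by
      have g1 : #Bs ≤ #(badT d' w2 (ε / 4) C B N ×ˢ Icc 1 N) := by
        apply Finset.card_le_card_of_injOn (fun m => (Fin.tail m, m 0))
        · intro m hm
          have hm' := mem_filter.1 (Finset.mem_coe.1 hm)
          rw [Finset.mem_coe, Finset.mem_product]
          exact ⟨hm'.2, (hpi m hm'.1).1⟩
        · intro m _ m' _ h
          have h' : Fin.tail m = Fin.tail m' ∧ m 0 = m' 0 := by
            simpa using h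
          rw [← Fin.cons_self_tail m, ← Fin.cons_self_tail m', h'.1, h'.2]
      rw [Finset.card_product, Nat.card_Icc, Nat.add_sub_cancel] at g1
      calc (#Bs : ℝ) ≤ (#(badT d' w2 (ε / 4) C B N) : ℝ) * N := by exact_mod_cast g1
        _ ≤ _ := h1 N hN1 w2 hw2b
    have hfin : (#(badT d w ε C B N) : ℝ) ≤ (#A : ℝ) + #Bs := by
      exact_mod_cast (card_le_card hcov).trans (card_union_le _ _)
    calc (#(badT d w ε C B N) : ℝ) * N ≤ ((r + 1 : ℕ) * ((N : ℝ) ^ r * (N : ℝ) ^ θ)) * N := by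
          apply mul_le_mul_of_nonneg_right _ hN0.le
          push_cast
          linarith
      _ = _ := by
        rw [pow_succ]
        ring

/-- **all but `N ^ (r - 1 + θ)` of the `r`-tuples** -/
theorem tuples (θ C B : ℝ) (hθ : 1 / 2 < θ) (hθ1 : θ < 1) (hC : 1 / (2 * θ - 1) < C)
    (hB : B < 1 / (2 * (1 - θ))) (r : ℕ) (d : Fin r → Dat) (ε : ℝ) (hε : 0 < ε) :
    ∃ N₀ : ℕ, ∀ N : ℕ, N₀ ≤ N → ∀ w : ℕ → ℝ, (∀ p, 0 ≤ w p ∧ w p ≤ 1) →
      (#(badT d w ε C B N) : ℝ) ≤ (N : ℝ) ^ ((r : ℝ) - 1 + θ) := by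
  have h2θ : 0 < 2 * θ - 1 := by linarith
  have h1θ : 0 < 1 - θ := by linarith
  have hC0 : 0 < C := lt_trans (by positivity) hC
  set B' : ℝ := max B 1 with hB'
  have hB'1 : 1 ≤ B' := le_max_right _ _
  have hB'0 : 0 < B' := by linarith
  have hB'θ : B' < 1 / (2 * (1 - θ)) := by
    apply max_lt hB
    rw [lt_div_iff₀ (by positivity)]
    linarith
  obtain ⟨θ', h1θ', hθ'θ, hCθ', hB'θ'⟩ : ∃ θ' : ℝ, 1 / 2 < θ' ∧ θ' < θ ∧ 1 < C * (2 * θ' - 1) ∧
      2 * B' * (1 - θ') < 1 := by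
    have h1 : 1 / 2 + 1 / (2 * C) < θ := by
      have h3 : 1 / (2 * C) < θ - 1 / 2 := by
        rw [div_lt_iff₀ h2θ] at hC
        rw [div_lt_iff₀ (by positivity)]
        linarith
      linarith
    have h2 : 1 - 1 / (2 * B') < θ := by
      have h3 : 1 - θ < 1 / (2 * B') := by
        rw [lt_div_iff₀ (by positivity)] at hB'θ ⊢
        linarith
      linarith
    obtain ⟨θ', h4, h5⟩ := exists_between (max_lt h1 h2)
    obtain ⟨h6, h7⟩ := max_lt_iff.1 h4
    refine ⟨θ', ?_, h5, ?_, ?_⟩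
    · have : 0 < 1 / (2 * C) := by positivity
      linarith
    · have h8 : 1 / (2 * C) < θ' - 1 / 2 := by linarith
      rw [div_lt_iff₀ (by positivity)] at h8
      linarith
    · have h8 : 1 - θ' < 1 / (2 * B') := by linarith
      rw [lt_div_iff₀ (by positivity)] at h8
      linarith
  have c1 : 1 / (2 * θ' - 1) < C := by
    rw [div_lt_iff₀ (by linarith)]
    exact hCθ'
  have c2 : B < 1 / (2 * (1 - θ')) := by
    refine lt_of_le_of_lt (le_max_left B 1) ?_
    rw [lt_div_iff₀ (by linarith)]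
    linarith
  obtain ⟨N₁, h1⟩ := tuples0 θ' C B h1θ' (by linarith) c1 c2 r d ε hε
  have hev : ∀ᶠ N : ℕ in atTop, (r : ℝ) ≤ (N : ℝ) ^ (θ - θ') :=
    ((tendsto_rpow_atTop (by linarith)).comp tendsto_natCast_atTop_atTop).eventually_ge_atTop _
  obtain ⟨N₂, h2⟩ := eventually_atTop.1 hev
  refine ⟨max (max N₁ N₂) 1, fun N hN w hw => ?_⟩
  have hN3 : 1 ≤ N := (le_max_right _ _).trans hN
  have hN0 : (0 : ℝ) < N := by exact_mod_cast hN3
  have h3 := h1 N (((le_max_left _ _).trans (le_max_left _ _)).trans hN) w hw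
  have h4 := h2 N (((le_max_right _ _).trans (le_max_left _ _)).trans hN)
  have h5 : (#(badT d w ε C B N) : ℝ) * N ≤ (N : ℝ) ^ ((r : ℝ) - 1 + θ) * N := by
    refine h3.trans ?_
    calc (r : ℝ) * ((N : ℝ) ^ r * (N : ℝ) ^ θ') ≤
          (N : ℝ) ^ (θ - θ') * ((N : ℝ) ^ r * (N : ℝ) ^ θ') := by gcongr
      _ = (N : ℝ) ^ ((r : ℝ) - 1 + θ) * N := by
        rw [← Real.rpow_add_one hN0.ne', ← Real.rpow_natCast, ← Real.rpow_add hN0,
          ← Real.rpow_add hN0]
        congr 1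
        ring
  exact le_of_mul_le_mul_right h5 hN0

end Pool.Agent.K6.H61.SI
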